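import Mathlib
open Set Filter Topology
open scoped ComplexConjugate
namespace Pool.Agent.H.MP_3d980f_co

theorem galois {n : ℕ} (hn : Odd n) {u w : ℂ} (hu : u ^ n = 1) (hw : w ^ n = 1)
    (h : u + u⁻¹ + w + w⁻¹ = 1) : u = 1 ∨ w = 1 := by
  have n0 : 0 < n := hn.pos
  have : NeZero n := ⟨n0.ne'⟩
  have hζ := Complex.isPrimitiveRoot_exp n n0.ne'
  set ζ := Complex.exp (2 * Real.pi * Complex.I / n) with hζd
  have u0 : u ≠ 0 := by rintro rfl; simp [n0.ne'] at hu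
  have w0 : w ≠ 0 := by rintro rfl; simp [n0.ne'] at hw
  have inv : ∀ x : ℂ, x ^ n = 1 → x⁻¹ = x ^ (n - 1) := fun x hx =>
    (eq_inv_of_mul_eq_one_left (by rw [← pow_succ, Nat.sub_add_cancel n0, hx])).symm
  obtain ⟨i, -, hi⟩ := hζ.eq_pow_of_pow_eq_one hu
  obtain ⟨j, -, hj⟩ := hζ.eq_pow_of_pow_eq_one hw
  set p : Polynomial ℚ := Polynomial.X ^ i + (Polynomial.X ^ i) ^ (n - 1) + Polynomial.X ^ j +
    (Polynomial.X ^ j) ^ (n - 1) - 1 with hp
  have h1 : Polynomial.aeval ζ p = 0 := by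
    simp only [hp, map_sub, map_add, map_pow, Polynomial.aeval_X, map_one, hi, hj]
    rw [← inv u hu, ← inv w hw, h, sub_self]
  have h2 := minpoly.dvd ℚ ζ h1
  rw [← Polynomial.cyclotomic_eq_minpoly_rat hζ n0,
    Polynomial.cyclotomic_eq_minpoly_rat (hζ.pow_of_coprime 2 (Nat.coprime_two_left.2 hn)) n0] at h2
  have h3 := Polynomial.aeval_eq_zero_of_dvd_aeval_eq_zero h2 (minpoly.aeval ℚ (ζ ^ 2))
  simp only [hp, map_sub, map_add, map_pow, Polynomial.aeval_X, map_one] at h3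
  rw [← pow_mul ζ 2 i, mul_comm 2 i, pow_mul, hi, ← pow_mul ζ 2 j, mul_comm 2 j, pow_mul, hj,
    ← pow_mul u, mul_comm 2, pow_mul, ← inv u hu, ← pow_mul w, mul_comm 2, pow_mul,
    ← inv w hw] at h3
  have a1 := mul_inv_cancel₀ u0
  have a2 := mul_inv_cancel₀ w0
  have h4 : (u + u⁻¹ - 2) * (w + w⁻¹ - 2) = 0 := by
    linear_combination ((u + u⁻¹ + w + w⁻¹ - 3) / 2) * h - (1 / 2) * h3 - a1 - a2
  rcases mul_eq_zero.1 h4 with h5 | h5
  · left
    have : (u - 1) ^ 2 = 0 := by linear_combination u * h5 - a1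
    exact sub_eq_zero.1 (pow_eq_zero_iff two_ne_zero |>.1 this)
  · right
    have : (w - 1) ^ 2 = 0 := by linear_combination w * h5 - a2
    exact sub_eq_zero.1 (pow_eq_zero_iff two_ne_zero |>.1 this)

theorem conj_of {A B : ℂ} (hA : ‖A‖ = 1) (hB : ‖B‖ = 1) (h : (A + B).im = 0) (h0 : A + B ≠ 0) :
    B = conj A := by
  have h1 := Complex.sq_norm A
  have h2 := Complex.sq_norm B
  rw [hA, Complex.normSq_apply] at h1
  rw [hB, Complex.normSq_apply] at h2
  rw [Complex.add_im] at h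
  have h3 : (B.re - A.re) * (A.re + B.re) = 0 := by
    linear_combination h1 - h2 + (A.im - B.im) * h
  refine Complex.ext ?_ (by simp; linarith)
  rcases mul_eq_zero.1 h3 with h4 | h4
  · simp; linarith
  · exact (h0 (Complex.ext (by simpa using h4) (by simpa using h))).elim

variable {Γ : Type} [Field Γ] [CharZero Γ] {ι : Γ →+* ℂ}

def Sp (ι : Γ →+* ℂ) : Prop := ∀ z, ‖ι z‖ ≤ 2 → ∃ u u', ‖ι u‖ = 1 ∧ ‖ι u'‖ = 1 ∧ z = u + u'

theorem small (hs : Sp ι) {η : ℝ} (hη : 0 < η) : ∃ u u', ‖ι u‖ = 1 ∧ ‖ι u'‖ = 1 ∧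
    ι u' = conj (ι u) ∧ (ι u).re ≠ 1 ∧ (ι u).im ≠ 0 ∧ ‖ι u - 1‖ < η := by
  obtain ⟨q, q0, q1⟩ := exists_rat_btwn (show (0 : ℝ) < min 1 (η ^ 2 / 2) by positivity)
  have q2 := q1.trans_le (min_le_left _ _)
  have q3 := q1.trans_le (min_le_right _ _)
  have e : ι ((2 - 2 * q : ℚ) : Γ) = ((2 - 2 * q : ℝ) : ℂ) := by rw [map_ratCast]; push_cast; rfl
  obtain ⟨u, u', h1, h2, h3⟩ := hs ((2 - 2 * q : ℚ) : Γ) (by
    rw [e, Complex.norm_real, Real.norm_of_nonneg (by linarith)]; linarith)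
  rw [h3, map_add] at e
  have h4 := conj_of h1 h2 (by rw [e]; simp) (by
    rw [e]; exact_mod_cast (by linarith : (2 - 2 * q : ℝ) ≠ 0))
  have h5 : (ι u).re = 1 - q := by
    have := congrArg Complex.re e
    rw [h4] at this
    simp at this
    linarith
  have h6 := Complex.sq_norm (ι u)
  rw [h1, Complex.normSq_apply, h5] at h6
  refine ⟨u, u', h1, h2, h4, by linarith, fun h => ?_, ?_⟩
  · rw [h] at h6; nlinarith
  · refine lt_of_pow_lt_pow_left₀ 2 hη.le ?_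
    rw [Complex.sq_norm, Complex.normSq_apply]
    simp only [Complex.sub_re, Complex.one_re, Complex.sub_im, Complex.one_im, h5]
    nlinarith

structure Sys (ι : Γ →+* ℂ) (H : Type) [NormedAddCommGroup H] [InnerProductSpace ℝ H] where
  T : Γ → H →ₗᵢ[ℝ] H
  E : Γ → Γ → H
  add : ∀ a b v, T (a + b) v = T a (T b v)
  sh : ∀ z a b, T z (E a b) = E (a + z) (b + z)
  sy : ∀ a b, E a b = E b a
  cont : ∀ ε > 0, ∃ δ > 0, ∀ a a' b, ‖ι (a - a')‖ < δ → ‖E a b - E a' b‖ < ε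
  sp : Sp ι

variable {H : Type} [NormedAddCommGroup H] [InnerProductSpace ℝ H] (S : Sys ι H)

namespace Sys

omit [CharZero Γ] in
theorem zero (v : H) : S.T 0 v = v := by
  have := S.add 0 0 v
  rw [add_zero] at this
  exact ((S.T 0).injective this).symm

def W (s : ℝ) (a b : Γ) : H :=
  (S.T b (S.E 0 a) - S.E 0 a) - s • (S.T a (S.E 0 b) - S.E 0 b)

omit [CharZero Γ] in
theorem contW {ε : ℝ} (hε : 0 < ε) : ∃ δ > 0, ∀ (s : ℝ) (a a' b b' z : Γ), |s| ≤ 1 →
    ‖ι (a - a')‖ < δ → ‖ι (b - b')‖ < δ → ‖ι z‖ < δ → ‖S.T z (S.W s a b) - S.W s a' b'‖ < ε := by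
  obtain ⟨δ, δ0, h⟩ := S.cont (ε / 8) (by positivity)
  have h2 : ∀ a a' b b', ‖ι (a - a')‖ < δ → ‖ι (b - b')‖ < δ → ‖S.E a b - S.E a' b'‖ < ε / 4 := by
    intro a a' b b' h1 h2
    have a1 := h a a' b h1
    have a2 := h b b' a' h2
    rw [S.sy b, S.sy b'] at a2
    linarith [norm_sub_le_norm_sub_add_norm_sub (S.E a b) (S.E a' b) (S.E a' b')]
  refine ⟨δ / 3, by positivity, fun s a a' b b' z hs h3 h4 h5 => ?_⟩
  have d : ∀ x y : Γ, (x - y = z ∨ x - y = (a - a') + z ∨ x - y = (b - b') + z ∨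
      x - y = (a - a') + (b - b') + z) → ‖ι (x - y)‖ < δ := by
    intro x y hxy
    rcases hxy with e | e | e | e <;> rw [e]
    · linarith
    · rw [map_add]; linarith [norm_add_le (ι (a - a')) (ι z)]
    · rw [map_add]; linarith [norm_add_le (ι (b - b')) (ι z)]
    · rw [map_add, map_add]
      linarith [norm_add₃_le (a := ι (a - a')) (b := ι (b - b')) (c := ι z)]
  have e1 := h2 (0 + b + z) (0 + b') (a + b + z) (a' + b') (d _ _ (by right; right; left; ring))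
    (d _ _ (by right; right; right; ring))
  have e2 := h2 (0 + z) 0 (a + z) a' (d _ _ (by left; ring)) (d _ _ (by right; left; ring))
  have e3 := h2 (0 + a + z) (0 + a') (b + a + z) (b' + a') (d _ _ (by right; left; ring))
    (d _ _ (by right; right; right; ring))
  have e4 := h2 (0 + z) 0 (b + z) b' (d _ _ (by left; ring)) (d _ _ (by right; right; left; ring))
  simp only [W, map_sub, map_smul, S.sh]
  have e5 : ∀ A B C D A' B' C' D' : H, (A - B - s • (C - D)) - (A' - B' - s • (C' - D')) =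
      (A - A') - (B - B') - s • ((C - C') - (D - D')) := by intros; module
  rw [e5]
  refine (norm_sub_le _ _).trans_lt ?_
  rw [norm_smul, Real.norm_eq_abs]
  have f1 := norm_sub_le (S.E (0 + b + z) (a + b + z) - S.E (0 + b') (a' + b'))
    (S.E (0 + z) (a + z) - S.E 0 a')
  have f2 := norm_sub_le (S.E (0 + a + z) (b + a + z) - S.E (0 + a') (b' + a'))
    (S.E (0 + z) (b + z) - S.E 0 b')
  have f3 := mul_le_mul_of_nonneg_right hs (norm_nonneg (S.E (0 + a + z) (b + a + z) -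
    S.E (0 + a') (b' + a') - (S.E (0 + z) (b + z) - S.E 0 b')))
  linarith

omit [CharZero Γ] in
theorem fixz {x : Γ} {w : H} (h : S.T x w = w) (n : ℤ) : S.T (n * x) w = w := by
  induction n using Int.induction_on with
  | zero => simp [S.zero]
  | succ n ih => push_cast at ih ⊢; rw [add_mul, one_mul, S.add, h, ih]
  | pred n ih =>
    push_cast at ih ⊢
    apply (S.T x).injective
    rw [← S.add, h, show x + (-(n : Γ) - 1) * x = -(n : Γ) * x by ring, ih]

omit [CharZero Γ] in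
theorem near {x : Γ} {w w' : H} (h : S.T x w' = w') : ‖S.T x w - w‖ ≤ 2 * ‖w' - w‖ := by
  have : S.T x w - w = (w' - w) - S.T x (w' - w) := by rw [map_sub, h]; abel
  rw [this, two_mul]
  exact (norm_sub_le _ _).trans (by rw [(S.T x).norm_map])

omit [CharZero Γ] in
theorem tri (x y : Γ) (w : H) : ‖S.T (x + y) w - w‖ ≤ ‖S.T x w - w‖ + ‖S.T y w - w‖ := by
  have : S.T (x + y) w - w = (S.T x w - w) + S.T x (S.T y w - w) := by rw [map_sub, S.add]; abel
  rw [this]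
  exact (norm_add_le _ _).trans (by rw [(S.T x).norm_map])

theorem inv {s : ℝ} (hs : |s| ≤ 1) {a b c : Γ} (hb : b ≠ 0)
    (h : ∀ u, ‖ι u‖ = 1 → S.T (u * b) (S.W s (u * a) (u * c)) = S.W s (u * a) (u * c)) :
    S.W s a c = 0 := by
  set w := S.W s a c with hw
  have h1 : ∀ z, S.T z w = w := by
    intro z
    rw [← sub_eq_zero, ← norm_le_zero_iff]
    refine le_of_forall_pos_le_add fun ε hε => ?_
    obtain ⟨δ, δ0, hδ⟩ := S.contW (ε := ε / 5) (by positivity)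
    set M := ‖ι a‖ + ‖ι c‖ + 2 * ‖ι b‖ + 1 with hM
    have M0 : 0 < M := by positivity
    obtain ⟨u, u', a1, a2, a3, a4, a5, a6⟩ := small S.sp (div_pos δ0 M0)
    rw [lt_div_iff₀ M0] at a6
    have r0 := norm_nonneg (ι u - 1)
    have na := norm_nonneg (ι a)
    have nb := norm_nonneg (ι b)
    have nc := norm_nonneg (ι c)
    have b1 : ∀ v : Γ, ‖ι v‖ = 1 → ‖ι v - 1‖ = ‖ι u - 1‖ → ∀ n : ℤ,
        ‖S.T (n * (v * b)) w - w‖ ≤ 2 * (ε / 5) := by
      intro v hv hv' n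
      refine (S.near (S.fixz (h v hv) n)).trans ?_
      have := hδ s (v * a) a (v * c) c 0 hs
        (by rw [← sub_one_mul, map_mul, map_sub, map_one, norm_mul, hv']; nlinarith)
        (by rw [← sub_one_mul, map_mul, map_sub, map_one, norm_mul, hv']; nlinarith)
        (by simpa using δ0)
      rw [S.zero] at this
      linarith
    have b2 := h 1 (by simp)
    simp only [one_mul, ← hw] at b2
    set x := (ι (z / b)).re with hx
    set y := (ι (z / b)).im with hy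
    set m := round (x / (2 * ((ι u).re - 1))) with hm
    set n := round (y / (2 * (ι u).im)) with hn
    have rd : ∀ t c : ℝ, c ≠ 0 → |t - round (t / (2 * c)) * (2 * c)| ≤ |c| := by
      intro t c hc
      have := mul_le_mul_of_nonneg_right (abs_sub_round (t / (2 * c))) (abs_nonneg (2 * c))
      rw [← abs_mul, sub_mul, div_mul_cancel₀ _ (by positivity), abs_mul 2, abs_two] at this
      linarith
    have c1 := rd x _ (sub_ne_zero.2 a4)
    have c2 := rd y _ a5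
    rw [← hm] at c1
    rw [← hn] at c2
    have c3 : |(ι u).re - 1| ≤ ‖ι u - 1‖ := by simpa using Complex.abs_re_le_norm (ι u - 1)
    have c4 : |(ι u).im| ≤ ‖ι u - 1‖ := by simpa using Complex.abs_im_le_norm (ι u - 1)
    set g : Γ := z / b - (((m + n : ℤ) : Γ) * u + ((m - n : ℤ) : Γ) * u' + ((-2 * m : ℤ) : Γ))
      with hg
    have c5 : ‖ι g‖ ≤ 2 * ‖ι u - 1‖ := by
      refine (Complex.norm_le_abs_re_add_abs_im _).trans ?_
      have d1 : (ι g).re = x - m * (2 * ((ι u).re - 1)) := by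
        rw [hg, map_sub, Complex.sub_re, ← hx]; simp [a3, map_ofNat]; ring
      have d2 : (ι g).im = y - n * (2 * (ι u).im) := by
        rw [hg, map_sub, Complex.sub_im, ← hy]; simp [a3, map_ofNat]; ring
      rw [d1, d2]; linarith
    have c6 : z = g * b + (((m + n : ℤ) : Γ) * (u * b) + (((m - n : ℤ) : Γ) * (u' * b) +
        ((-2 * m : ℤ) : Γ) * b)) := by rw [hg]; field_simp; ring
    have c7 := hδ s a a c c (g * b) hs (by simpa using δ0) (by simpa using δ0)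
      (by rw [map_mul, norm_mul]; nlinarith [mul_le_mul_of_nonneg_right c5 nb])
    have c8 := S.tri (g * b) (((m + n : ℤ) : Γ) * (u * b) + (((m - n : ℤ) : Γ) * (u' * b) +
        ((-2 * m : ℤ) : Γ) * b)) w
    have c9 := S.tri (((m + n : ℤ) : Γ) * (u * b)) (((m - n : ℤ) : Γ) * (u' * b) +
        ((-2 * m : ℤ) : Γ) * b) w
    have c10 := S.tri (((m - n : ℤ) : Γ) * (u' * b)) (((-2 * m : ℤ) : Γ) * b) w
    rw [S.fixz b2, sub_self, norm_zero] at c10
    rw [← c6] at c8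
    have c11 := b1 u a1 rfl (m + n)
    have c12 := b1 u' a2 (by rw [a3, ← Complex.norm_conj]; simp) (m - n)
    linarith
  have h2 : ∀ z v, inner ℝ w (S.T z v) = inner ℝ w v := fun z v => by
    conv_lhs => rw [← h1 z]
    exact (S.T z).inner_map_map w v
  rw [← inner_self_eq_zero (𝕜 := ℝ)]
  conv_lhs => rw [hw]; arg 3; rw [W]
  simp only [inner_sub_right, inner_smul_right, ← hw, h2, sub_self, mul_zero]

def Rel (s : ℝ) (a b : Γ) : Prop := ∀ u, ‖ι u‖ = 1 → S.W s (u * a) (u * b) = 0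

omit [CharZero Γ] in
theorem rel_refl (a : Γ) : S.Rel 1 a a := fun u _ => by simp [W]

omit [CharZero Γ] in
theorem rel_neg (a : Γ) : S.Rel (-1) a (-a) := fun u _ => by
  simp only [W, S.sh, mul_neg, zero_add, add_neg_cancel, neg_add_cancel]
  rw [S.sy (-(u * a)) 0, S.sy (u * a) 0]; module

omit [CharZero Γ] in
theorem Rel.symm {S : Sys ι H} {a b : Γ} (h : S.Rel 1 a b) : S.Rel 1 b a := fun u hu => by
  have := h u hu
  simp only [W, one_smul, sub_eq_zero] at this ⊢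
  exact this.symm

omit [CharZero Γ] in
theorem Rel.rot {S : Sys ι H} {s : ℝ} {a b : Γ} (h : S.Rel s a b) {v : Γ} (hv : ‖ι v‖ = 1) :
    S.Rel s (v * a) (v * b) := fun u hu => by
  simpa only [mul_assoc] using h (u * v) (by rw [map_mul, norm_mul, hu, hv, one_mul])

theorem Rel.comp {S : Sys ι H} {s : ℝ} (hs : |s| ≤ 1) {a b c : Γ} (h1 : S.Rel 1 a b)
    (h2 : S.Rel s b c) (hb : b ≠ 0) : S.Rel s a c := by
  intro u hu
  have u0 : u ≠ 0 := by rintro rfl; simp at hu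
  refine S.inv hs (mul_ne_zero u0 hb) fun v hv => ?_
  have a1 := h1.rot hu v hv
  have a2 := h2.rot hu v hv
  generalize v * (u * a) = a at *
  generalize v * (u * b) = b at *
  generalize v * (u * c) = c at *
  have a3 := congrArg (S.T c) a1
  have a4 := congrArg (S.T a) a2
  simp only [W, map_sub, map_smul, map_zero, ← S.add] at a1 a2 a3 a4 ⊢
  rw [add_comm c b, add_comm c a] at a3
  rw [add_comm a b] at a4
  linear_combination (norm := module) a3 - a1 + a4 - a2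

omit [CharZero Γ] in
theorem rel_lim (h : ∀ η > 0, ∃ v, ‖ι v - 1‖ < η ∧ S.Rel (-1) 1 v) {u : Γ} (hu : ‖ι u‖ = 1) :
    S.E u (u + u) = S.E 0 u := by
  have : S.W (-1) u u = 0 := by
    rw [← norm_le_zero_iff]
    refine le_of_forall_pos_le_add fun ε hε => ?_
    obtain ⟨δ, δ0, hδ⟩ := S.contW hε
    obtain ⟨v, h1, h2⟩ := h δ δ0
    have := hδ (-1) u (u * 1) u (u * v) 0 (by simp) (by simpa using δ0) (by
      rw [← mul_one_sub, map_mul, norm_mul, hu, one_mul, map_sub, map_one, norm_sub_rev]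
      exact h1) (by simpa using δ0)
    rw [h2 u hu, S.zero, sub_zero] at this
    linarith
  simp only [W, S.sh, zero_add] at this
  linear_combination (norm := module) (1 / 2 : ℝ) • this

theorem grp {κ : ℝ} {k : Γ} (hk : ι k = κ) (k1 : 1 < κ) (k2 : κ ≤ 2) {c : H}
    (h : ∀ a b, (‖ι a‖ = 1 ∨ ‖ι a‖ = κ) → (‖ι b‖ = 1 ∨ ‖ι b‖ = κ) →
      (‖ι (a + b)‖ = 1 ∨ ‖ι (a + b)‖ = κ) → S.E 0 a + S.E a (a + b) + S.E 0 (a + b) = c)
    {u : Γ} (hu : ‖ι u‖ = 1) : S.E u (u + u) = S.E 0 u := by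
  have nk : ‖ι k‖ = κ := by rw [hk, Complex.norm_real, Real.norm_of_nonneg (by linarith)]
  have k0 : k ≠ 0 := by rintro rfl; simp at nk; linarith
  have ne0 : ∀ h : Γ, ‖ι h‖ = 1 → h ≠ 0 := by rintro h h1 rfl; simp at h1
  have ninv : ∀ h : Γ, ‖ι h‖ = 1 → ‖ι h⁻¹‖ = 1 := fun h h1 => by rw [map_inv₀, norm_inv, h1, inv_one]
  have r1 : ∀ a b, (‖ι a‖ = 1 ∨ ‖ι a‖ = κ) → (‖ι b‖ = 1 ∨ ‖ι b‖ = κ) →
      (‖ι (a + b)‖ = 1 ∨ ‖ι (a + b)‖ = κ) → S.Rel 1 a b := by
    intro a b h1 h2 h3 v hv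
    have e : ∀ z, ‖ι (v * z)‖ = ‖ι z‖ := fun z => by rw [map_mul, norm_mul, hv, one_mul]
    have a1 := h (v * a) (v * b) (by rwa [e]) (by rwa [e]) (by rwa [← mul_add, e])
    have a2 := h (v * b) (v * a) (by rwa [e]) (by rwa [e]) (by rwa [← mul_add, e, add_comm])
    simp only [W, S.sh, zero_add, add_comm (v * b)] at a2 ⊢
    linear_combination (norm := module) a2 - a1
  set G : AddSubgroup ℝ :=
    { carrier := {t | ∃ v, ι v = Complex.exp (t * Complex.I) ∧ S.Rel 1 1 v}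
      zero_mem' := ⟨1, by simp, S.rel_refl 1⟩
      add_mem' := by
        rintro t t' ⟨v, a1, a2⟩ ⟨v', a3, a4⟩
        have a5 : ‖ι v‖ = 1 := by rw [a1, Complex.norm_exp_ofReal_mul_I]
        refine ⟨v * v', by rw [map_mul, a1, a3, ← Complex.exp_add]; push_cast; ring_nf, ?_⟩
        exact a2.comp (by simp) (by simpa using a4.rot a5) (ne0 _ a5)
      neg_mem' := by
        rintro t ⟨v, a1, a2⟩
        have a5 : ‖ι v‖ = 1 := by rw [a1, Complex.norm_exp_ofReal_mul_I]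
        refine ⟨v⁻¹, by rw [map_inv₀, a1, ← Complex.exp_neg]; push_cast; ring_nf, ?_⟩
        simpa [inv_mul_cancel₀ (ne0 _ a5)] using a2.symm.rot (ninv _ a5) } with hG
  have fin : (∀ η > 0, ∃ t ∈ G, |t - Real.pi| < η) → S.E u (u + u) = S.E 0 u := by
    intro h1
    refine S.rel_lim (fun η hη => ?_) hu
    obtain ⟨t, ⟨v, a1, a2⟩, a3⟩ := h1 η hη
    have a5 : ‖ι v‖ = 1 := by rw [a1, Complex.norm_exp_ofReal_mul_I]
    refine ⟨-v, ?_, a2.comp (by simp) (S.rel_neg v) (ne0 _ a5)⟩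
    have : ι (-v) = Complex.exp (Complex.I * ((t - Real.pi : ℝ) : ℂ)) := by
      rw [map_neg, a1, Complex.ofReal_sub, mul_sub, Complex.exp_sub, mul_comm Complex.I,
        mul_comm Complex.I, Complex.exp_pi_mul_I]
      ring
    rw [this]
    exact (Real.norm_exp_I_mul_ofReal_sub_one_le).trans_lt a3
  rcases G.dense_or_cyclic with hd | ⟨τ, hτ⟩
  · refine fin fun η hη => ?_
    obtain ⟨t, a1, a2⟩ := hd.exists_dist_lt Real.pi hη
    exact ⟨t, a1, by rwa [Real.dist_eq, abs_sub_comm] at a2⟩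
  have p2 : 2 * Real.pi ∈ G := ⟨1, by push_cast; rw [Complex.exp_two_pi_mul_I, map_one],
    S.rel_refl 1⟩
  rw [hτ, AddSubgroup.mem_closure_singleton] at p2
  obtain ⟨n, hn⟩ := p2
  rcases Int.even_or_odd n with ⟨m, rfl⟩ | ho
  · refine fin fun η hη => ⟨m • τ, ?_, ?_⟩
    · rw [hτ, AddSubgroup.mem_closure_singleton]; exact ⟨m, rfl⟩
    · rw [add_smul] at hn
      rw [show m • τ - Real.pi = 0 by linarith]; simpa using hη
  exfalso
  have pw : ∀ v, ‖ι v‖ = 1 → S.Rel 1 1 v → ι v ^ n.natAbs = 1 := by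
    intro v hv hr
    have a1 : ι v = Complex.exp ((ι v).arg * Complex.I) := by
      conv_lhs => rw [← Complex.norm_mul_exp_arg_mul_I (ι v), hv]
      simp
    have a2 : (ι v).arg ∈ G := ⟨v, a1, hr⟩
    rw [hτ, AddSubgroup.mem_closure_singleton] at a2
    obtain ⟨j, hj⟩ := a2
    have a4 : ι v ^ n = 1 → ι v ^ n.natAbs = 1 := by
      cases n <;> simp
    refine a4 ?_
    rw [a1, ← hj, ← Complex.exp_int_mul]
    rw [zsmul_eq_mul] at hn ⊢
    have a3 : (n : ℂ) * τ = 2 * Real.pi := by exact_mod_cast hn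
    rw [← Complex.exp_int_mul_two_pi_mul_I j]
    congr 1; push_cast; linear_combination (j * Complex.I) * a3
  have kc : (κ : ℂ) ≠ 0 := by exact_mod_cast (by linarith : κ ≠ 0)
  obtain ⟨u1, u1', a1, a2, a3⟩ := S.sp k (by linarith)
  obtain ⟨u2, u2', a4, a5, a6⟩ := S.sp k⁻¹ (by
    rw [map_inv₀, norm_inv, nk]; exact (inv_le_one_of_one_le₀ k1.le).trans one_le_two)
  have b1 : ι u1 + ι u1' = κ := by rw [← map_add, ← a3, hk]
  have b2 : ι u2 + ι u2' = (κ⁻¹ : ℝ) := by rw [← map_add, ← a6, map_inv₀, hk]; simp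
  have c1 := conj_of a1 a2 (by rw [b1]; simp) (by rwa [b1])
  have c2 := conj_of a4 a5 (by rw [b2]; simp) (by rw [b2]; simpa using kc)
  rw [← Complex.inv_eq_conj a1] at c1
  rw [← Complex.inv_eq_conj a4] at c2
  have nk' : ‖ι (-k)‖ = κ := by rw [map_neg, norm_neg, nk]
  have d1 : S.Rel 1 u1 (-k) := r1 _ _ (.inl a1) (.inr nk') (.inl (by
    rw [a3, show u1 + -(u1 + u1') = -u1' by ring, map_neg, norm_neg, a2]))
  have d2 : ∀ p p' : Γ, ‖ι p‖ = 1 → ‖ι p'‖ = 1 → k⁻¹ = p + p' → ι p * ι p' = 1 →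
      S.Rel 1 1 (u1⁻¹ * p) := by
    intro p p' e1 e2 e3 e4
    have e5 : p * p' = 1 := ι.injective (by rw [map_mul, e4, map_one])
    have e6 : k * (p + p') = 1 := by rw [← e3, mul_inv_cancel₀ k0]
    have e7 : S.Rel 1 (-k) p := r1 _ _ (.inr nk') (.inl e1) (.inr (by
      rw [show -k + p = k * (p * p) by linear_combination k * e5 - p * e6, map_mul, map_mul,
        norm_mul, norm_mul, e1, nk]; ring))
    simpa [inv_mul_cancel₀ (ne0 _ a1)] using
      (d1.comp (by simp) e7 (neg_ne_zero.2 k0)).rot (ninv _ a1)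
  have i1 : ι u1 ≠ 0 := by rintro h; simp [h] at a1
  have i2 : ι u2 ≠ 0 := by rintro h; simp [h] at a4
  have f1 := pw _ (by rw [map_mul, norm_mul, ninv _ a1, a4, one_mul])
    (d2 u2 u2' a4 a5 a6 (by rw [c2, mul_inv_cancel₀ i2]))
  have f2 := pw _ (by rw [map_mul, norm_mul, ninv _ a1, a5, one_mul])
    (d2 u2' u2 a5 a4 (by rw [a6, add_comm]) (by rw [c2, inv_mul_cancel₀ i2]))
  rw [c1] at b1
  rw [c2] at b2
  have g0 : (κ : ℂ) ≠ (κ⁻¹ : ℝ) := by
    have : κ⁻¹ < κ := (inv_lt_one_of_one_lt₀ k1).trans k1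
    exact_mod_cast this.ne'
  have g1 : (ι u1 + (ι u1)⁻¹) * (ι u2 + (ι u2)⁻¹) = 1 := by
    rw [b1, b2]; push_cast; exact mul_inv_cancel₀ kc
  rw [map_mul, map_inv₀] at f1 f2
  rw [c2] at f2
  rcases galois (Int.natAbs_odd.2 ho) f1 f2 (by
    simp only [mul_inv, inv_inv]; linear_combination g1) with e | e
  · rw [inv_mul_eq_one₀ i1] at e
    exact g0 (by rw [← b1, ← b2, e])
  · rw [inv_mul_eq_one₀ i1] at e
    exact g0 (by rw [← b1, ← b2, e, inv_inv, add_comm])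

end Sys
end Pool.Agent.H.MP_3d980f_co
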