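import Mathlib
import Pool.Agent.H.MP_8b2bd9_co.I
open MeasureTheory Set Filter Topology Real
open scoped Nat
open Pool.Agent.H.MP_fc94d9_co Pool.Agent.H.MP_8b2bd9_co
namespace Pool.Agent.H.MP_3d980f_co

noncomputable def Py (N : ℕ) (y : ℝ) : ℝ := ∑ k ∈ Finset.range N, (-1) ^ k * y ^ k / (k ! * k !)

theorem pa1 {y : ℝ} (h1 : (0 : ℝ) ≤ y) (h2 : y ≤ (3 : ℝ)) : 0 ≤ 33 / 100 + (1 / 5 * (1 - y / 4) + 4 / 5 * Py 10 y) := by
  have a1 := sub_nonneg.2 h1
  have a2 := sub_nonneg.2 h2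
  have : 33 / 100 + (1 / 5 * (1 - y / 4) + 4 / 5 * Py 10 y) =
      (133 / 1968300 : ℝ) * (y - (0 : ℝ)) ^ 0 * ((3 : ℝ) - y) ^ 9 +
      (157 / 328050 : ℝ) * (y - (0 : ℝ)) ^ 1 * ((3 : ℝ) - y) ^ 8 +
      (244 / 164025 : ℝ) * (y - (0 : ℝ)) ^ 2 * ((3 : ℝ) - y) ^ 7 +
      (436 / 164025 : ℝ) * (y - (0 : ℝ)) ^ 3 * ((3 : ℝ) - y) ^ 6 +
      (7879 / 2624400 : ℝ) * (y - (0 : ℝ)) ^ 4 * ((3 : ℝ) - y) ^ 5 +
      (14543 / 6561000 : ℝ) * (y - (0 : ℝ)) ^ 5 * ((3 : ℝ) - y) ^ 4 +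
      (55979 / 52488000 : ℝ) * (y - (0 : ℝ)) ^ 6 * ((3 : ℝ) - y) ^ 3 +
      (51673 / 160744500 : ℝ) * (y - (0 : ℝ)) ^ 7 * ((3 : ℝ) - y) ^ 2 +
      (1809247 / 32920473600 : ℝ) * (y - (0 : ℝ)) ^ 8 * ((3 : ℝ) - y) ^ 1 +
      (1004263 / 246903552000 : ℝ) * (y - (0 : ℝ)) ^ 9 * ((3 : ℝ) - y) ^ 0 := by
    simp only [Py, Finset.sum_range_succ, Finset.sum_range_zero, Nat.factorial]
    push_cast
    ring
  rw [this]
  positivity

theorem pa2 {y : ℝ} (h1 : (3 : ℝ) ≤ y) (h2 : y ≤ (11 / 2 : ℝ)) : 0 ≤ 33 / 100 + (1 / 5 * (1 - y / 4) + 4 / 5 * Py 10 y) := by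
  have a1 := sub_nonneg.2 h1
  have a2 := sub_nonneg.2 h2
  have : 33 / 100 + (1 / 5 * (1 - y / 4) + 4 / 5 * Py 10 y) =
      (1004263 / 47851562500 : ℝ) * (y - (3 : ℝ)) ^ 0 * ((11 / 2 : ℝ) - y) ^ 9 +
      (3007169 / 27343750000 : ℝ) * (y - (3 : ℝ)) ^ 1 * ((11 / 2 : ℝ) - y) ^ 8 +
      (385216 / 1708984375 : ℝ) * (y - (3 : ℝ)) ^ 2 * ((11 / 2 : ℝ) - y) ^ 7 +
      (54449131 / 246093750000 : ℝ) * (y - (3 : ℝ)) ^ 3 * ((11 / 2 : ℝ) - y) ^ 6 +
      (57017833 / 492187500000 : ℝ) * (y - (3 : ℝ)) ^ 4 * ((11 / 2 : ℝ) - y) ^ 5 +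
      (186672067 / 1968750000000 : ℝ) * (y - (3 : ℝ)) ^ 5 * ((11 / 2 : ℝ) - y) ^ 4 +
      (8339563 / 54687500000 : ℝ) * (y - (3 : ℝ)) ^ 6 * ((11 / 2 : ℝ) - y) ^ 3 +
      (34221715757 / 248062500000000 : ℝ) * (y - (3 : ℝ)) ^ 7 * ((11 / 2 : ℝ) - y) ^ 2 +
      (25121332543 / 425250000000000 : ℝ) * (y - (3 : ℝ)) ^ 8 * ((11 / 2 : ℝ) - y) ^ 1 +
      (450298819921 / 45927000000000000 : ℝ) * (y - (3 : ℝ)) ^ 9 * ((11 / 2 : ℝ) - y) ^ 0 := by
    simp only [Py, Finset.sum_range_succ, Finset.sum_range_zero, Nat.factorial]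
    push_cast
    ring
  rw [this]
  positivity

theorem pb {y : ℝ} (h1 : (11 / 2 : ℝ) ≤ y) (h2 : y ≤ (289 / 16 : ℝ)) : 0 ≤ 23 / 80 + Py 10 y := by
  have a1 := sub_nonneg.2 h1
  have a2 := sub_nonneg.2 h2
  have : 23 / 80 + Py 10 y =
      (1223160895250432 / 614854850155461309039863175 : ℝ) * (y - (11 / 2 : ℝ)) ^ 0 * ((289 / 16 : ℝ) - y) ^ 9 +
      (14233622512280576 / 68317205572829034337762575 : ℝ) * (y - (11 / 2 : ℝ)) ^ 1 * ((289 / 16 : ℝ) - y) ^ 8 +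
      (898273206169015808 / 478220439009803240364338025 : ℝ) * (y - (11 / 2 : ℝ)) ^ 2 * ((289 / 16 : ℝ) - y) ^ 7 +
      (1258305972747694784 / 204951616718487103013287725 : ℝ) * (y - (11 / 2 : ℝ)) ^ 3 * ((289 / 16 : ℝ) - y) ^ 6 +
      (712458117968834428 / 68317205572829034337762575 : ℝ) * (y - (11 / 2 : ℝ)) ^ 4 * ((289 / 16 : ℝ) - y) ^ 5 +
      (1423489009073899223 / 136634411145658068675525150 : ℝ) * (y - (11 / 2 : ℝ)) ^ 5 * ((289 / 16 : ℝ) - y) ^ 4 +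
      (10414657634509840627 / 1639612933747896824106301800 : ℝ) * (y - (11 / 2 : ℝ)) ^ 6 * ((289 / 16 : ℝ) - y) ^ 3 +
      (10027633406233950533 / 4372301156661058197616804800 : ℝ) * (y - (11 / 2 : ℝ)) ^ 7 * ((289 / 16 : ℝ) - y) ^ 2 +
      (58376622630874962817 / 139913637013153862323737753600 : ℝ) * (y - (11 / 2 : ℝ)) ^ 8 * ((289 / 16 : ℝ) - y) ^ 1 +
      (777259904134937885423 / 70516473054629546611163827814400 : ℝ) * (y - (11 / 2 : ℝ)) ^ 9 * ((289 / 16 : ℝ) - y) ^ 0 := by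
    simp only [Py, Finset.sum_range_succ, Finset.sum_range_zero, Nat.factorial]
    push_cast
    ring
  rw [this]
  positivity

noncomputable def J0 (s : ℝ) : ℝ := (2 * π)⁻¹ * ∫ θ in (-π)..π, cos (s * cos θ)
noncomputable def J1 (s : ℝ) : ℝ := (2 * π)⁻¹ * ∫ θ in (-π)..π, sin (s * cos θ) * cos θ
noncomputable def J2 (s : ℝ) : ℝ := (2 * π)⁻¹ * ∫ θ in (-π)..π, cos (s * cos θ) * cos θ * cos θ

theorem dpar {F F' : ℝ → ℝ → ℝ} (h1 : ∀ s, Continuous (F s)) (h2 : ∀ s, Continuous (F' s))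
    (h3 : ∀ s θ, |F' s θ| ≤ 1) (h4 : ∀ s θ, HasDerivAt (fun s => F s θ) (F' s θ) s) (s : ℝ) :
    HasDerivAt (fun s => ∫ θ in (-π)..π, F s θ) (∫ θ in (-π)..π, F' s θ) s :=
  (intervalIntegral.hasDerivAt_integral_of_dominated_loc_of_deriv_le (bound := fun _ => 1)
    univ_mem (Eventually.of_forall fun s => (h1 s).aestronglyMeasurable)
    ((h1 s).intervalIntegrable _ _) (h2 s).aestronglyMeasurable
    (Eventually.of_forall fun θ _ x _ => h3 x θ) intervalIntegrable_const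
    (Eventually.of_forall fun θ _ x _ => h4 x θ)).2

theorem dJ0 (s : ℝ) : HasDerivAt J0 (-J1 s) s := by
  have := (dpar (F := fun s θ => cos (s * cos θ)) (F' := fun s θ => -(sin (s * cos θ) * cos θ))
    (fun _ => by fun_prop) (fun _ => by fun_prop) (fun s θ => by
      rw [abs_neg, abs_mul]
      exact mul_le_one₀ (abs_sin_le_one _) (abs_nonneg _) (abs_cos_le_one _))
    (fun s θ => by simpa using (hasDerivAt_mul_const (x := s) (cos θ)).cos) s).const_mul (2 * π)⁻¹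
  rwa [intervalIntegral.integral_neg, mul_neg] at this

theorem dJ1 (s : ℝ) : HasDerivAt J1 (J2 s) s :=
  (dpar (F := fun s θ => sin (s * cos θ) * cos θ)
    (F' := fun s θ => cos (s * cos θ) * cos θ * cos θ)
    (fun _ => by fun_prop) (fun _ => by fun_prop) (fun s θ => by
      rw [abs_mul, abs_mul]
      exact mul_le_one₀ (mul_le_one₀ (abs_cos_le_one _) (abs_nonneg _) (abs_cos_le_one _))
        (abs_nonneg _) (abs_cos_le_one _))
    (fun s θ => (hasDerivAt_mul_const (x := s) (cos θ)).sin.mul_const (cos θ)) s).const_mul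
      (2 * π)⁻¹

theorem ode (s : ℝ) : s * J2 s + J1 s = s * J0 s := by
  have h := intervalIntegral.integral_eq_sub_of_hasDerivAt (a := -π) (b := π)
    (f := fun θ => sin (s * cos θ) * sin θ)
    (f' := fun θ => s * (cos (s * cos θ) * cos θ * cos θ) + sin (s * cos θ) * cos θ -
      s * cos (s * cos θ))
    (fun θ _ => (((hasDerivAt_cos θ).const_mul s).sin.mul (hasDerivAt_sin θ)).congr_deriv (by
      linear_combination (-s * cos (s * cos θ)) * sin_sq_add_cos_sq θ))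
    (Continuous.intervalIntegrable (by fun_prop) _ _)
  rw [intervalIntegral.integral_sub (Continuous.intervalIntegrable (by fun_prop) _ _)
    (Continuous.intervalIntegrable (by fun_prop) _ _),
    intervalIntegral.integral_add (Continuous.intervalIntegrable (by fun_prop) _ _)
    (Continuous.intervalIntegrable (by fun_prop) _ _), intervalIntegral.integral_const_mul,
    intervalIntegral.integral_const_mul] at h
  simp only [sin_neg, sin_pi, neg_zero, mul_zero, sub_zero] at h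
  simp only [J0, J1, J2]
  linear_combination (2 * π)⁻¹ * h

theorem J0_eq (a : ℝ) : (Jr a).re = 2 * π * J0 (2 * π * a) := by
  have hc : Continuous fun θ => er (a * cos θ) := by fun_prop
  have b1 := intervalIntegral.intervalIntegral_re (hc.intervalIntegrable (μ := volume) (-π) π)
  rw [J0, mul_inv_cancel_left₀ two_pi_pos.ne']
  refine b1.symm.trans (intervalIntegral.integral_congr fun θ _ => ?_)
  simp only [er_eq, Real.fourierChar_apply, RCLike.re_to_complex, Complex.exp_ofReal_mul_I_re]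
  rw [mul_assoc (2 * π)]

theorem J0_zero : J0 0 = 1 := by
  have := J0_eq 0
  rw [Jr_zero, mul_zero] at this
  have h : (2 * π : ℂ).re = 2 * π := by simp
  rw [h] at this
  exact (mul_left_cancel₀ two_pi_pos.ne' (by rw [← this, mul_one])).symm

theorem J0_le (s : ℝ) : J0 s ≤ 1 := by
  have h := (Complex.re_le_norm _).trans (Jr_le (s / (2 * π)))
  rw [J0_eq, mul_div_cancel₀ _ two_pi_pos.ne'] at h
  nlinarith [two_pi_pos]

theorem J0_ge (s : ℝ) : -(1 / 2) ≤ J0 s := by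
  have h := Jr_ge (s / (2 * π))
  rw [J0_eq, mul_div_cancel₀ _ two_pi_pos.ne'] at h
  nlinarith [pi_pos]

noncomputable def Qy (N : ℕ) (s : ℝ) : ℝ :=
  ∑ k ∈ Finset.range N, (-1) ^ k * (s ^ 2 / 4) ^ k * (s / 2) / (k ! * (k + 1)!)

theorem dsq (s : ℝ) (k : ℕ) : HasDerivAt (fun s : ℝ => (s ^ 2 / 4) ^ (k + 1))
    ((k + 1 : ℕ) * (s ^ 2 / 4) ^ k * (s / 2)) s :=
  (((hasDerivAt_pow 2 s).div_const 4).pow (k + 1)).congr_deriv (by simp; ring_nf; simp)

theorem dP (N : ℕ) (s : ℝ) : HasDerivAt (fun s => Py (N + 1) (s ^ 2 / 4)) (-Qy N s) s := by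
  induction N with
  | zero => simpa [Py, Qy] using hasDerivAt_const s (1 : ℝ)
  | succ N ih =>
    simp only [Py, Qy] at ih ⊢
    simp only [Finset.sum_range_succ _ (N + 1)]
    refine (ih.add (((dsq s N).const_mul ((-1) ^ (N + 1))).div_const _)).congr_deriv ?_
    rw [Finset.sum_range_succ _ N, Nat.factorial_succ N]
    have : (N ! : ℝ) ≠ 0 := by positivity
    push_cast; field_simp; ring

theorem dQ (N : ℕ) (s : ℝ) : HasDerivAt (fun s => s * Qy N s) (s * Py N (s ^ 2 / 4)) s := by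
  induction N with
  | zero => simpa [Py, Qy] using hasDerivAt_const s (0 : ℝ)
  | succ N ih =>
    simp only [Py, Qy] at ih ⊢
    simp only [Finset.sum_range_succ _ N, mul_add]
    refine ih.add ?_
    have e : (fun s : ℝ => s * ((-1) ^ N * (s ^ 2 / 4) ^ N * (s / 2) / (N ! * (N + 1)!))) =
        fun s : ℝ => (2 * (-1) ^ N / (N ! * (N + 1)!)) * (s ^ 2 / 4) ^ (N + 1) := by
      funext s; ring
    rw [e]
    refine ((dsq s N).const_mul _).congr_deriv ?_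
    rw [Nat.factorial_succ N]
    have : (N ! : ℝ) ≠ 0 := by positivity
    push_cast; field_simp

theorem mono0 {f f' : ℝ → ℝ} (h0 : f 0 = 0) (h1 : ∀ x, HasDerivAt f (f' x) x)
    (h2 : ∀ x, 0 < x → 0 ≤ f' x) {x : ℝ} (hx : 0 ≤ x) : 0 ≤ f x := by
  have := monotoneOn_of_deriv_nonneg (convex_Ici 0)
    (fun x _ => (h1 x).continuousAt.continuousWithinAt)
    (fun x _ => (h1 x).differentiableAt.differentiableWithinAt)
    (fun x hx => by rw [(h1 x).deriv]; exact h2 x (by simpa using hx)) self_mem_Ici hx hx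
  rwa [h0] at this

theorem stepQ {N : ℕ} (h : ∀ s, 0 ≤ s → 0 ≤ (-1) ^ N * (J0 s - Py N (s ^ 2 / 4))) {s : ℝ}
    (hs : 0 < s) : 0 ≤ (-1) ^ N * (J1 s - Qy N s) := by
  have := mono0 (f := fun s => (-1) ^ N * (s * J1 s - s * Qy N s))
    (f' := fun s => s * ((-1) ^ N * (J0 s - Py N (s ^ 2 / 4)))) (by simp)
    (fun x => ((((hasDerivAt_id x).mul (dJ1 x)).sub (dQ N x)).const_mul _).congr_deriv (by
      simp only [id]; linear_combination (-1) ^ N * ode x))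
    (fun x hx => mul_nonneg hx.le (h x hx.le)) hs.le
  rw [← mul_sub, mul_left_comm] at this
  exact (mul_nonneg_iff_of_pos_left hs).1 this

theorem tay (N : ℕ) : ∀ s, 0 ≤ s → 0 ≤ (-1) ^ (N + 1) * (J0 s - Py (N + 1) (s ^ 2 / 4)) := by
  induction N with
  | zero => intro s _; simpa [Py] using J0_le s
  | succ N ih =>
    intro s hs
    refine mono0 (f := fun s => (-1) ^ (N + 1 + 1) * (J0 s - Py (N + 1 + 1) (s ^ 2 / 4)))
      (f' := fun s => (-1) ^ (N + 1) * (J1 s - Qy (N + 1) s)) ?_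
      (fun x => (((dJ0 x).sub (dP (N + 1) x)).const_mul _).congr_deriv (by ring))
      (fun x hx => stepQ ih hx) hs
    simp [Py, J0_zero, Finset.sum_range_succ']

theorem tail {s : ℝ} (hs : 17 / 2 ≤ s) : -(23 / 80) ≤ J0 s := by
  have d : ∀ x, HasDerivAt (fun s => J0 s ^ 2 + J1 s ^ 2)
      (2 * J0 x * -J1 x + 2 * J1 x * J2 x) x := fun x =>
    (((dJ0 x).pow 2).add ((dJ1 x).pow 2)).congr_deriv (by simp)
  have h1 := antitoneOn_of_deriv_nonpos (convex_Ici (17 / 2 : ℝ))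
    (fun x _ => (d x).continuousAt.continuousWithinAt)
    (fun x _ => (d x).differentiableAt.differentiableWithinAt)
    (fun x hx => by
      rw [(d x).deriv]
      have x0 : 0 < x := by rw [interior_Ici] at hx; linarith [mem_Ioi.1 hx]
      refine nonpos_of_mul_nonpos_right (a := x) ?_ x0
      have : x * (2 * J0 x * -J1 x + 2 * J1 x * J2 x) = -(2 * J1 x ^ 2) := by
        linear_combination 2 * J1 x * ode x
      rw [this]; nlinarith [sq_nonneg (J1 x)]) self_mem_Ici hs hs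
  have a1 := tay 11 (17 / 2) (by norm_num)
  have a2 := tay 12 (17 / 2) (by norm_num)
  have a3 := stepQ (tay 11) (s := 17 / 2) (by norm_num)
  have a4 := stepQ (tay 12) (s := 17 / 2) (by norm_num)
  simp only [Py, Qy, Finset.sum_range_succ, Finset.sum_range_zero, Nat.factorial] at a1 a2 a3 a4
  norm_num at a1 a2 a3 a4
  have b1 : J0 (17 / 2) ^ 2 ≤ (1 / 20) ^ 2 := sq_le_sq' (by linarith) (by linarith)
  have b2 : J1 (17 / 2) ^ 2 ≤ (7 / 25) ^ 2 := sq_le_sq' (by linarith) (by linarith)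
  simp only at h1
  nlinarith [sq_nonneg (J1 s)]

theorem bes0 {s t : ℝ} (ht : 0 ≤ t) (hs : 2 * t ≤ s) :
    -(33 / 100) ≤ 1 / 5 * J0 t + 4 / 5 * J0 s := by
  have s0 : 0 ≤ s := by linarith
  have a1 := tay 9 s s0
  have a2 := tay 1 t ht
  norm_num at a1
  simp [Py, Finset.sum_range_succ] at a2
  have a3 := J0_ge t
  by_cases h1 : 17 / 2 ≤ s
  · linarith [tail h1]
  by_cases h2 : 11 / 2 ≤ s ^ 2 / 4
  · linarith [pb h2 (by nlinarith)]
  have a4 : t ^ 2 / 4 ≤ s ^ 2 / 4 / 4 := by nlinarith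
  by_cases h3 : 3 ≤ s ^ 2 / 4
  · linarith [pa2 h3 (not_le.1 h2).le]
  · linarith [pa1 (y := s ^ 2 / 4) (by positivity) (not_le.1 h3).le]

theorem bes {κ ρ : ℝ} (hκ : 2 ≤ κ) (hρ : 0 ≤ ρ) :
    -(33 / 100) * (2 * π) ≤ 1 / 5 * (Jr ρ).re + 4 / 5 * (Jr (κ * ρ)).re := by
  have := bes0 (t := 2 * π * ρ) (s := 2 * π * (κ * ρ)) (by positivity) (by
    have := mul_le_mul_of_nonneg_right hκ (by positivity : 0 ≤ 2 * π * ρ)
    linarith)
  rw [J0_eq, J0_eq]
  nlinarith [two_pi_pos]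

end Pool.Agent.H.MP_3d980f_co
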