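import Mathlib
import Pool.Agent.H.MP_8b2bd9_co.I
import Pool.Agent.H.MP_fc94d9_co.J
open MeasureTheory Set Filter Topology ProbabilityTheory
open scoped ENNReal Nat ComplexConjugate
open Pool.Agent.H.MP_fc94d9_co Pool.Agent.H.MP_8b2bd9_co
namespace Pool.Agent.H.MP_3d980f_co

section MK
variable {X : Type} [TopologicalSpace X] [CompactSpace X] [MeasurableSpace X] [BorelSpace X]

theorem cin {f : X → ℝ} (hf : Continuous f) :
    Continuous fun μ : ProbabilityMeasure X => ∫ x, f x ∂μ :=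
  ProbabilityMeasure.continuous_integral_boundedContinuousFunction
    (BoundedContinuousFunction.mkOfCompact ⟨f, hf⟩)

theorem itg {f : X → ℝ} (hf : Continuous f) (μ : Measure X) [IsFiniteMeasure μ] :
    Integrable f μ :=
  (BoundedContinuousFunction.mkOfCompact ⟨f, hf⟩).integrable μ

noncomputable def av {ϕ : X → X} (hϕ : Continuous ϕ) (N : ℕ) (μ : ProbabilityMeasure X) :
    ProbabilityMeasure X :=
  ⟨((N + 1 : ℕ) : ℝ≥0∞)⁻¹ • ∑ i ∈ Finset.range (N + 1), (μ : Measure X).map ϕ^[i], ⟨by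
    simp only [Measure.smul_apply, Measure.coe_finsetSum, Finset.sum_apply,
      Measure.map_apply (hϕ.measurable.iterate _) MeasurableSet.univ, preimage_univ, measure_univ,
      Finset.sum_const, Finset.card_range, nsmul_eq_mul, mul_one, smul_eq_mul]
    exact ENNReal.inv_mul_cancel (by simp) (by simp)⟩⟩

theorem int_av {ϕ : X → X} (hϕ : Continuous ϕ) (N : ℕ) (μ : ProbabilityMeasure X) {f : X → ℝ}
    (hf : Continuous f) : ∫ x, f x ∂(av hϕ N μ : Measure X) = ((N : ℝ) + 1)⁻¹ *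
      ∑ i ∈ Finset.range (N + 1), ∫ x, f (ϕ^[i] x) ∂(μ : Measure X) := by
  simp only [av, ProbabilityMeasure.coe_mk]
  rw [integral_smul_measure, integral_finsetSum_measure fun i _ => itg hf _, smul_eq_mul,
    ENNReal.toReal_inv, ENNReal.toReal_natCast, Nat.cast_succ]
  congr 1
  exact Finset.sum_congr rfl fun i _ =>
    integral_map (hϕ.measurable.iterate _).aemeasurable hf.aestronglyMeasurable

def Iv (ϕ : X → X) (ε : ℝ) (μ : ProbabilityMeasure X) : Prop :=
  ∀ f : X → ℝ, Continuous f → ∀ C : ℝ, (∀ x, |f x| ≤ C) →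
    |∫ x, f (ϕ x) ∂(μ : Measure X) - ∫ x, f x ∂(μ : Measure X)| ≤ ε * C

theorem closed_iv {ϕ : X → X} (hϕ : Continuous ϕ) (ε : ℝ) : IsClosed {μ | Iv ϕ ε μ} := by
  simp only [Iv, setOf_forall]
  exact isClosed_iInter fun f => isClosed_iInter fun hf => isClosed_iInter fun C =>
    isClosed_iInter fun _ =>
      isClosed_le ((cin (hf.comp hϕ)).sub (cin hf)).abs continuous_const

theorem iv_self {ϕ : X → X} (hϕ : Continuous ϕ) (N : ℕ) (μ : ProbabilityMeasure X) :
    Iv ϕ (2 / ((N : ℝ) + 1)) (av hϕ N μ) := by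
  intro f hf C hC
  have N0 : (0 : ℝ) < (N : ℝ) + 1 := by positivity
  have h2 : ∀ i, |∫ x, f (ϕ^[i] x) ∂(μ : Measure X)| ≤ C := fun i => by
    have := norm_integral_le_of_norm_le_const (μ := (μ : Measure X))
      (f := fun x => f (ϕ^[i] x)) (C := C) (Eventually.of_forall fun x => hC _)
    simpa using this
  rw [int_av hϕ N μ (f := fun x => f (ϕ x)) (hf.comp hϕ), int_av hϕ N μ hf, ← mul_sub,
    ← Finset.sum_sub_distrib]
  simp only [← Function.iterate_succ_apply' ϕ]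
  rw [Finset.sum_range_sub (fun i => ∫ x, f (ϕ^[i] x) ∂(μ : Measure X)), abs_mul,
    abs_of_pos (inv_pos.2 N0), inv_mul_le_iff₀ N0]
  refine (abs_sub _ _).trans ?_
  have : ((N : ℝ) + 1) * (2 / ((N : ℝ) + 1) * C) = C + C := by field_simp; ring
  rw [this]
  exact add_le_add (h2 _) (h2 _)

theorem iv_av {ϕ ψ : X → X} (hϕ : Continuous ϕ) (hψ : Continuous ψ) (hc : Function.Commute ϕ ψ)
    {ε : ℝ} {μ : ProbabilityMeasure X} (hμ : Iv ϕ ε μ) (N : ℕ) : Iv ϕ ε (av hψ N μ) := by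
  intro f hf C hC
  have N0 : (0 : ℝ) < (N : ℝ) + 1 := by positivity
  rw [int_av hψ N μ (f := fun x => f (ϕ x)) (hf.comp hϕ), int_av hψ N μ hf, ← mul_sub,
    ← Finset.sum_sub_distrib, abs_mul, abs_of_pos (inv_pos.2 N0), inv_mul_le_iff₀ N0]
  refine (Finset.abs_sum_le_sum_abs _ _).trans ?_
  have h1 : ∀ i x, ϕ (ψ^[i] x) = ψ^[i] (ϕ x) := fun i x => (hc.iterate_right i) x
  simp only [h1]
  have := Finset.sum_le_card_nsmul (Finset.range (N + 1)) _ (ε * C) fun i _ =>
    hμ (fun x => f (ψ^[i] x)) (hf.comp (hψ.iterate i)) C fun x => hC _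
  simpa using this

theorem mk [T2Space X] [HasOuterApproxClosed X] {I J : Type} (ϕ : I → X → X)
    (hϕ : ∀ i, Continuous (ϕ i)) (hc : ∀ i j, Function.Commute (ϕ i) (ϕ j)) (F : J → X → ℝ)
    (hF : ∀ j, Continuous (F j)) (c : J → ℝ) (μ0 : ProbabilityMeasure X)
    (h0 : ∀ j, ∫ x, F j x ∂μ0 = c j) (hS : ∀ i (μ : ProbabilityMeasure X),
      (∀ j, ∫ x, F j x ∂μ = c j) → ∀ j, ∫ x, F j (ϕ i x) ∂μ = c j) :
    ∃ μ : ProbabilityMeasure X, (∀ j, ∫ x, F j x ∂μ = c j) ∧
      ∀ i, MeasurePreserving (ϕ i) (μ : Measure X) μ := by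
  classical
  have h1 : ∀ i n (μ : ProbabilityMeasure X), (∀ j, ∫ x, F j x ∂μ = c j) →
      ∀ j, ∫ x, F j ((ϕ i)^[n] x) ∂μ = c j := by
    intro i n
    induction n with
    | zero => exact fun μ h => h
    | succ n ih =>
      intro μ h j
      have e : ∀ f : X → ℝ, Continuous f →
          ∫ x, f x ∂(μ.map (hϕ i).measurable.aemeasurable) = ∫ x, f (ϕ i x) ∂μ := fun f hf =>
        integral_map (hϕ i).measurable.aemeasurable hf.aestronglyMeasurable
      rw [← ih (μ.map (hϕ i).measurable.aemeasurable)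
        (fun j => by rw [e _ (hF j)]; exact hS i μ h j) j,
        e (fun x => F j ((ϕ i)^[n] x)) ((hF j).comp ((hϕ i).iterate n))]
      rfl
  have hcl : IsClosed {μ : ProbabilityMeasure X | ∀ j, ∫ x, F j x ∂μ = c j} := by
    rw [setOf_forall]
    exact isClosed_iInter fun j => isClosed_eq (cin (hF j)) continuous_const
  obtain ⟨μ, h2, h3⟩ := hcl.isCompact.inter_iInter_nonempty
    (fun i : I × ℕ => {μ : ProbabilityMeasure X | Iv (ϕ i.1) (2 / ((i.2 : ℝ) + 1)) μ})
    (fun i => closed_iv (hϕ _) _)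
    (fun u => by
      induction u using Finset.induction_on with
      | empty => exact ⟨μ0, h0, by simp⟩
      | insert i u hi ih =>
        obtain ⟨μ, a1, a2⟩ := ih
        rw [Finset.set_biInter_insert]
        refine ⟨av (hϕ i.1) i.2 μ, fun j => ?_, iv_self _ _ _,
          mem_iInter₂.2 fun j hj => iv_av (hϕ _) _ (hc _ _) (mem_iInter₂.1 a2 j hj) _⟩
        rw [int_av _ _ _ (hF j)]
        simp only [h1 _ _ μ a1 j, Finset.sum_const, Finset.card_range, nsmul_eq_mul]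
        push_cast; field_simp)
  refine ⟨μ, h2, fun i => ⟨(hϕ i).measurable, ?_⟩⟩
  refine ext_of_forall_integral_eq_of_IsFiniteMeasure fun f => ?_
  rw [integral_map (hϕ i).measurable.aemeasurable f.continuous.aestronglyMeasurable,
    ← sub_eq_zero, ← abs_nonpos_iff]
  have := ((tendsto_one_div_add_atTop_nhds_zero_nat (𝕜 := ℝ)).const_mul 2).mul_const ‖f‖
  rw [mul_zero, zero_mul] at this
  refine ge_of_tendsto' this fun n => ?_
  rw [mul_one_div]
  exact mem_iInter.1 h3 (i, n) f f.continuous ‖f‖ fun x => f.norm_coe_le_norm x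

end MK

theorem fin_pd {Γ : Type} [AddCommGroup Γ] (ϕ : Γ → ℝ) (h0 : ϕ 0 = 1) (h1 : ∀ z, |ϕ z| ≤ 1)
    (h2 : ∀ z, ϕ (-z) = ϕ z) (hpd : ∀ (J : Type) [Fintype J] (β : J → Γ) (w : J → ℂ),
      0 ≤ (∑ g, ∑ g', w g * conj (w g') * ϕ (β g - β g')).re) (Φ : Finset Γ) {ε : ℝ}
    (hε : 0 < ε) : ∃ μ : ProbabilityMeasure (Γ → T), ∀ v : Φ → ℤ, (∀ s, |v s| ≤ 2) →
      |∫ x : Γ → T, (ec (∑ s : Φ, v s • x s)).re ∂μ - ϕ (∑ s, v s • (s : Γ))| ≤ ε := by
  classical
  obtain ⟨M, hM⟩ := exists_nat_gt (8 * Fintype.card Φ / ε)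
  have hM0 : (0 : ℝ) < M := lt_of_le_of_lt (by positivity) hM
  have : NeZero M := ⟨by rintro rfl; simp at hM0⟩
  set β : (Φ → ZMod M) → Γ := fun g => ∑ s, ((g s).val : ℤ) • (s : Γ) with hβ
  have hβ1 : ∀ g ∉ bd Φ M, ∀ v : Φ → ℤ, (∀ s, |v s| ≤ 2) →
      β (g + fun s => (v s : ZMod M)) = β g + ∑ s, v s • (s : Γ) := by
    intro g hg v hv
    simp only [hβ, val_shift hg v hv, add_smul, Finset.sum_add_distrib]
  set n := M ^ Fintype.card Φ with hn
  have n0 : 0 < n := Nat.pos_of_ne_zero (pow_ne_zero _ (NeZero.ne M))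
  have n0' : (0 : ℝ) < n := by exact_mod_cast n0
  have cn : Fintype.card (Φ → ZMod M) = n := by rw [Fintype.card_fun, ZMod.card]
  have hbd : 2 * ((bd Φ M).card : ℝ) ≤ ε * n := by
    have b1 : ((bd Φ M).card : ℝ) * M ≤ 4 * Fintype.card Φ * n := by
      exact_mod_cast card_bd (I := Φ) (M := M)
    rw [div_lt_iff₀ hε] at hM
    apply le_of_mul_le_mul_right _ hM0
    nlinarith
  set S : (Φ → ZMod M) → ℂ := fun a => ∑ g, ∑ g', chi a g * conj (chi a g') * ϕ (β g - β g')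
    with hS
  have hre : ∀ a, ((S a).re : ℂ) = S a := by
    intro a
    rw [← Complex.conj_eq_iff_re]
    simp only [hS, map_sum, map_mul, Complex.conj_conj, Complex.conj_ofReal]
    rw [Finset.sum_comm]
    refine Finset.sum_congr rfl fun g _ => Finset.sum_congr rfl fun g' _ => ?_
    rw [← h2, neg_sub]; ring
  set p : (Φ → ZMod M) → ℝ := fun a => (S a).re / (n * n) with hp
  have hpar : ∀ v : Φ → ZMod M, ∑ a, p a * (chi a v).re = (∑ g, ϕ (β g - β (g + v))) / n := by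
    intro v
    have b1 : ∑ a, S a * chi a v = n * ∑ g, (ϕ (β g - β (g + v)) : ℂ) := by
      have e : ∀ a, S a * chi a v = ∑ g, ∑ g', chi a (g + v - g') * ϕ (β g - β g') := by
        intro a
        simp only [hS, Finset.sum_mul]
        refine Finset.sum_congr rfl fun g _ => Finset.sum_congr rfl fun g' _ => ?_
        rw [sub_eq_add_neg (g + v), chi_add, chi_add, chi_neg]; ring
      simp only [e]
      rw [Finset.sum_comm, Finset.mul_sum]
      refine Finset.sum_congr rfl fun g _ => ?_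
      rw [Finset.sum_comm]
      simp only [← Finset.sum_mul, sum_chi, sub_eq_zero, ite_mul, zero_mul]
      rw [Finset.sum_ite_eq]
      simp [hn]
    have b2 := congrArg Complex.re b1
    rw [Complex.re_sum, ← Complex.ofReal_sum, ← Complex.ofReal_natCast, ← Complex.ofReal_mul,
      Complex.ofReal_re] at b2
    have b3 : ∀ a, (S a * chi a v).re = (S a).re * (chi a v).re := fun a => by
      rw [← Complex.re_ofReal_mul, hre]
    simp only [b3] at b2
    simp only [hp, div_mul_eq_mul_div]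
    rw [← Finset.sum_div, b2]
    field_simp
  obtain ⟨μ, a1, -⟩ := disc_meas p (fun a => div_nonneg (hpd _ β (chi a)) (by positivity)) (by
    have := hpar 0
    simp only [chi_zero', Complex.one_re, mul_one, add_zero, sub_self, h0, Finset.sum_const,
      Finset.card_univ, cn, nsmul_eq_mul] at this
    rw [this, div_self n0'.ne'])
    (fun a (z : Γ) => if h : z ∈ Φ then ZMod.toAddCircle (a ⟨z, h⟩) else (0 : T))
  refine ⟨μ, fun v hv => ?_⟩
  have b0 : Measurable fun x : Γ → T => ∑ s : Φ, v s • x s :=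
    Finset.measurable_sum _ fun s _ =>
      (continuous_zsmul (v s)).measurable.comp (measurable_pi_apply (s : Γ))
  have b0' : Measurable fun x : Γ → T => (ec (∑ s : Φ, v s • x s)).re :=
    Complex.measurable_re.comp (cont_ec.measurable.comp b0)
  rw [a1 _ b0']
  have b1 : ∀ a : Φ → ZMod M, ec (∑ s : Φ, v s • (if h : (s : Γ) ∈ Φ then
      ZMod.toAddCircle (a ⟨s, h⟩) else (0 : T))) = chi a fun s => (v s : ZMod M) := by
    intro a
    rw [chi]
    congr 1
    refine Finset.sum_congr rfl fun s _ => ?_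
    rw [dif_pos s.2, ← map_zsmul, zsmul_eq_mul, mul_comm]
  simp only [b1]
  rw [hpar, div_sub' n0'.ne', abs_div, abs_of_pos n0', div_le_iff₀ n0', ← nsmul_eq_mul, ← cn,
    ← Finset.card_univ, ← Finset.sum_const, ← Finset.sum_sub_distrib, Finset.card_univ, cn]
  refine (Finset.abs_sum_le_sum_abs _ _).trans (le_trans ?_ hbd)
  rw [← Finset.sum_subset (Finset.subset_univ (bd Φ M)) fun g _ hg => by
    rw [hβ1 g hg v hv, sub_add_cancel_left, h2, sub_self, abs_zero]]
  have := Finset.sum_le_card_nsmul (bd Φ M) (fun g => |ϕ (β g - β (g + fun s => (v s : ZMod M))) -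
    ϕ (∑ s, v s • (s : Γ))|) 2 fun g _ => (abs_sub _ _).trans (by
      linarith [h1 (β g - β (g + fun s => (v s : ZMod M))), h1 (∑ s, v s • (s : Γ))])
  rwa [nsmul_eq_mul, mul_comm] at this

variable {Γ : Type} [Field Γ] [Countable Γ]

theorem ad_of {μ : Measure (Γ → T)} [IsProbabilityMeasure μ]
    (h1 : ∀ a b, ∫ x, (ec (x a + x b - x (a + b))).re ∂μ = 1) : ∀ᵐ x ∂μ, Ad x := by
  simp only [Ad, ae_all_iff]
  intro a b
  have hb : ∀ u, (ec u).re ≤ 1 := fun u => (Complex.re_le_norm _).trans (norm_ec u).le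
  have i1 := integ (cont2 a b) μ
  have b1 := (integral_eq_zero_iff_of_nonneg (μ := μ)
    (f := fun x : Γ → T => 1 - (ec (x a + x b - x (a + b))).re)
    (fun x => sub_nonneg.2 (hb _)) ((integrable_const _).sub i1)).1 (by
      rw [integral_sub (integrable_const _) i1, h1]
      simp)
  filter_upwards [b1] with x hx
  have c1 : (ec (x a + x b - x (a + b))).re = 1 := by
    have : 1 - (ec (x a + x b - x (a + b))).re = 0 := hx
    linarith
  have c2 := Complex.sq_norm (ec (x a + x b - x (a + b)))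
  rw [norm_ec, Complex.normSq_apply, c1] at c2
  have c3 : ec (x a + x b - x (a + b)) = 1 :=
    Complex.ext c1 (mul_self_eq_zero.1 (by linarith))
  exact (sub_eq_zero.1 (ec_eq_one c3)).symm

theorem bochner (ι : Γ →+* ℂ) (ϕ : Γ → ℝ) (h0 : ϕ 0 = 1) (h1 : ∀ z, |ϕ z| ≤ 1)
    (h2 : ∀ u z, ‖ι u‖ = 1 → ϕ (u * z) = ϕ z)
    (hpd : ∀ (J : Type) [Fintype J] (β : J → Γ) (w : J → ℂ),
      0 ≤ (∑ g, ∑ g', w g * conj (w g') * ϕ (β g - β g')).re) :
    ∃ μ : ProbabilityMeasure (Γ → T), (∀ s, ∫ x, (ec (x s)).re ∂(μ : Measure (Γ → T)) = ϕ s) ∧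
      (∀ᵐ x ∂(μ : Measure (Γ → T)), Ad x) ∧ UI ι (μ : Measure (Γ → T)) := by
  classical
  obtain ⟨μ, -, h3⟩ := isCompact_univ.inter_iInter_nonempty
    (fun i : (Γ × Γ) × ℕ => {μ : ProbabilityMeasure (Γ → T) |
      |∫ x, (ec (x i.1.1)).re ∂(μ : Measure (Γ → T)) - ϕ i.1.1| ≤ 1 / ((i.2 : ℝ) + 1)} ∩
      {μ | |∫ x, (ec (x i.1.1 + x i.1.2 - x (i.1.1 + i.1.2))).re ∂(μ : Measure (Γ → T)) - 1| ≤
        1 / ((i.2 : ℝ) + 1)})
    (fun i => (isClosed_le ((cint (cont1 _)).sub continuous_const).abs continuous_const).inter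
      (isClosed_le ((cint (cont2 _ _)).sub continuous_const).abs continuous_const))
    (fun u => by
      set Φ : Finset Γ := u.biUnion fun i => {i.1.1, i.1.2, i.1.1 + i.1.2} with hΦ
      obtain ⟨μ, h4⟩ := fin_pd ϕ h0 h1 (fun z => by simpa using h2 (-1) z (by simp)) hpd Φ
        (ε := 1 / (((u.sup Prod.snd : ℕ) : ℝ) + 1)) (by positivity)
      refine ⟨μ, mem_univ _, mem_iInter₂.2 fun i hi => ?_⟩
      have a1 : i.1.1 ∈ Φ := Finset.mem_biUnion.2 ⟨i, hi, by simp⟩
      have a2 : i.1.2 ∈ Φ := Finset.mem_biUnion.2 ⟨i, hi, by simp⟩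
      have a3 : i.1.1 + i.1.2 ∈ Φ := Finset.mem_biUnion.2 ⟨i, hi, by simp⟩
      have a4 : 1 / (((u.sup Prod.snd : ℕ) : ℝ) + 1) ≤ 1 / ((i.2 : ℝ) + 1) := by
        have : i.2 ≤ u.sup Prod.snd := Finset.le_sup (f := Prod.snd) hi
        gcongr
      constructor
      · have b1 := h4 (Pi.single ⟨_, a1⟩ 1) fun s => by
          rw [Pi.single_apply]; split_ifs <;> norm_num
        simp only [sum_sing] at b1
        exact b1.trans a4
      · have b1 := h4 (Pi.single ⟨_, a1⟩ 1 + Pi.single ⟨_, a2⟩ 1 - Pi.single ⟨_, a3⟩ 1)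
          fun s => by
            simp only [Pi.sub_apply, Pi.add_apply, Pi.single_apply]; split_ifs <;> norm_num
        simp only [Pi.sub_apply, Pi.add_apply, sub_smul, add_smul, Finset.sum_sub_distrib,
          Finset.sum_add_distrib, sum_sing, sub_self, h0] at b1
        exact b1.trans a4)
  have h4 := mem_iInter.1 h3
  have lim : ∀ t : ℝ, (∀ n : ℕ, |t| ≤ 1 / ((n : ℝ) + 1)) → t = 0 := fun t ht =>
    abs_nonpos_iff.1 (ge_of_tendsto' tendsto_one_div_add_atTop_nhds_zero_nat ht)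
  obtain ⟨ν, a1, a2⟩ := mk (fun u : {u : Γ // ‖ι u‖ = 1} => mu u.1) (fun u => cont_mu u.1)
    (fun u v x => by funext z; simp only [mu, mul_left_comm])
    (J := Γ ⊕ Γ × Γ) (Sum.elim (fun s x => (ec (x s)).re)
      fun s x => (ec (x s.1 + x s.2 - x (s.1 + s.2))).re)
    (by rintro (s | s); exacts [cont1 s, cont2 _ _]) (Sum.elim ϕ fun _ => 1) μ
    (by
      rintro (s | s)
      · exact sub_eq_zero.1 (lim _ fun n => (h4 ((s, s), n)).1)
      · exact sub_eq_zero.1 (lim _ fun n => (h4 (s, n)).2))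
    (by
      rintro u ν h (s | s)
      · exact (h (.inl (u.1 * s))).trans (h2 _ _ u.2)
      · simpa only [Sum.elim_inr, mu, mul_add] using h (.inr (u.1 * s.1, u.1 * s.2)))
  exact ⟨ν, fun s => a1 (.inl s), ad_of fun a b => a1 (.inr (a, b)), fun h hh => a2 ⟨h, hh⟩⟩

end Pool.Agent.H.MP_3d980f_co
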