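import Mathlib
import Pool.Agent.H.MP_3d980f_co.A
import Pool.Agent.H.MP_3d980f_co.C
open MeasureTheory Set Filter Topology ProbabilityTheory
open scoped ENNReal Nat ComplexConjugate
open Pool.Agent.H.MP_fc94d9_co Pool.Agent.H.MP_8b2bd9_co
namespace Pool.Agent.H.MP_3d980f_co

variable {Γ : Type} [Field Γ] [CharZero Γ]

theorem alg {K : Subfield Γ} {w : K} (hw : w ^ 2 = -15) (V : Submodule K Γ) {u : Γ} (hu : u ≠ 0)
    (n : ℕ) (h : {t : ℕ | (1 - ((-(8 / 15 * w) + t : K) : Γ) * u) * ∑ i ∈ Finset.range (n + 1),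
      u ^ i * ((8 / 15 * w + t : K) : Γ) ^ (n + 1 - 1 - i) ∈ V}.Infinite) :
    1 ∈ V ∧ u ^ n ∈ V ∧ u ^ (n + 1) ∈ V := by
  have key : ∀ f ∈ V.dualAnnihilator, f 1 = 0 ∧ f (u ^ n) = 0 ∧ f (u ^ (n + 1)) = 0 := by
    intro f hf
    set s : K → Γ := fun α => ∑ i ∈ Finset.range (n + 1), u ^ i * (α : Γ) ^ (n + 1 - 1 - i) with hs
    set S : Polynomial K := ∑ i ∈ Finset.range (n + 1),
      Polynomial.C (f (u ^ i)) * Polynomial.X ^ (n + 1 - 1 - i) with hS
    have sm : ∀ (α : K) (z : Γ), f ((α : Γ) * z) = α * f z := fun α z => map_smul f α z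
    have h1 : ∀ α, S.eval α = f (s α) := by
      intro α
      simp only [hS, hs, Polynomial.eval_finsetSum, map_sum, Polynomial.eval_mul,
        Polynomial.eval_C, Polynomial.eval_pow, Polynomial.eval_X]
      refine Finset.sum_congr rfl fun i _ => ?_
      rw [mul_comm (u ^ i), ← SubmonoidClass.coe_pow, sm, mul_comm]
    have h2 : ∀ α : K, s α * (u - α) = u ^ (n + 1) - α ^ (n + 1) := fun α => geom_sum₂_mul _ _ _
    have h3 : ∀ α β : K, f ((1 - β * u) * s α) =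
        f (s α) - β * (α * f (s α) + f (u ^ (n + 1)) - α ^ (n + 1) * f 1) := by
      intro α β
      rw [← sm, ← sm, ← map_add, ← map_sub, ← sm, ← map_sub]
      congr 1
      push_cast
      linear_combination (-β : Γ) * h2 α
    set P : Polynomial K := S - (Polynomial.X - Polynomial.C (16 / 15 * w)) * (Polynomial.X * S +
      Polynomial.C (f (u ^ (n + 1))) - Polynomial.X ^ (n + 1) * Polynomial.C (f 1)) with hP
    have h4 : ∀ α, P.eval α = f (s α) - (α - 16 / 15 * w) *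
        (α * f (s α) + f (u ^ (n + 1)) - α ^ (n + 1) * f 1) := fun α => by
      simp only [hP, Polynomial.eval_sub, Polynomial.eval_mul, Polynomial.eval_add,
        Polynomial.eval_C, Polynomial.eval_pow, Polynomial.eval_X, h1]
    have h5 : P = 0 := by
      refine Polynomial.eq_zero_of_infinite_isRoot P ((h.image (f := fun t : ℕ =>
        (8 / 15 * w + t : K)) fun a _ b _ e => by simpa using e).mono ?_)
      rintro _ ⟨t, ht, rfl⟩
      have := (Submodule.mem_dualAnnihilator f).1 hf _ ht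
      rw [h3] at this
      rw [mem_setOf_eq, Polynomial.IsRoot, h4, ← this]
      ring
    simp only [h5, Polynomial.eval_zero] at h4
    have w0 : w ≠ 0 := by rintro rfl; norm_num at hw
    have a1 : w * (f (u ^ (n + 1)) - w ^ (n + 1) * f 1) = 0 := by
      linear_combination (-15) * h4 w - f (s w) * hw
    have a2 : w * (f (u ^ (n + 1)) - (w / 15) ^ (n + 1) * f 1) = 0 := by
      linear_combination (-1) * h4 (w / 15) - f (s (w / 15)) / 15 * hw
    have a3 := sub_eq_zero.1 ((mul_eq_zero.1 a1).resolve_left w0)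
    have a4 := sub_eq_zero.1 ((mul_eq_zero.1 a2).resolve_left w0)
    have a5 : f 1 = 0 := by
      by_contra h0
      have b1 := mul_right_cancel₀ h0 (a3.symm.trans a4)
      rw [div_pow, eq_div_iff (pow_ne_zero _ (by norm_num)), mul_eq_left₀ (pow_ne_zero _ w0)] at b1
      have b2 : (15 : ℕ) ^ (n + 1) = 1 := by exact_mod_cast b1
      simp at b2
    rw [a5, mul_zero] at a3
    have a6 := h4 0
    have a7 : s 0 = u ^ n := mul_right_cancel₀ hu (by simpa [pow_succ] using h2 0)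
    rw [a3, a5, a7] at a6
    exact ⟨a5, by simpa using a6.symm, a3⟩
  simp only [← Subspace.forall_mem_dualAnnihilator_apply_eq_zero_iff V]
  exact ⟨fun f hf => (key f hf).1, fun f hf => (key f hf).2.1, fun f hf => (key f hf).2.2⟩

def Th (ι : Γ →+* ℂ) (θ : ℕ → Γ) : Prop :=
  (∀ N, 1 ≤ N → θ N * (1 - θ N) = (N ^ 2 : ℕ)) ∧ ∀ N, ι (1 - θ N) = conj (ι (θ N))

variable {ι : Γ →+* ℂ} {θ : ℕ → Γ}

theorem th_re (h : Th ι θ) : (ι (θ 2)).re = 1 / 2 ∧ (ι (θ 2)).im ^ 2 = 15 / 4 := by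
  have a1 : (ι (θ 2)).re = 1 / 2 := by
    have := congrArg Complex.re (h.2 2)
    simp only [map_sub, map_one, Complex.sub_re, Complex.one_re, Complex.conj_re] at this
    linarith
  refine ⟨a1, ?_⟩
  have := congrArg Complex.re (congrArg ι (h.1 2 one_le_two))
  simp only [map_mul, map_sub, map_one, map_natCast, Complex.mul_re, Complex.sub_re,
    Complex.one_re, Complex.sub_im, Complex.one_im, Complex.natCast_re, a1] at this
  push_cast at this
  linarith

omit [CharZero Γ] in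
theorem mu_mu (a b : Γ) (x : Γ → T) : mu a (mu b x) = mu (b * a) x := by
  funext z; simp only [mu, mul_assoc]

omit [CharZero Γ] in
theorem mu_one (x : Γ → T) : mu 1 x = x := by funext z; simp only [mu, one_mul]

omit [CharZero Γ] in
theorem lin_add {x : Γ → T} (hx : Ad x) {a b : Γ} {d e : ℕ} {ξ ζ : ℝ} (h1 : Lin (mu a x) d ξ)
    (h2 : Lin (mu b x) e ζ) : Lin (mu (a + b) x) (d * e) (ξ + ζ) := by
  intro k
  have : mu (a + b) x (2 ^ k)⁻¹ - (((ξ + ζ) / 2 ^ k : ℝ) : T) =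
      (mu a x (2 ^ k)⁻¹ - ((ξ / 2 ^ k : ℝ) : T)) + (mu b x (2 ^ k)⁻¹ - ((ζ / 2 ^ k : ℝ) : T)) := by
    simp only [mu, add_mul, hx _ _, add_div, AddCircle.coe_add]; abel
  rw [this, smul_add, mul_nsmul, h1 k, mul_nsmul', h2 k]; simp

theorem lin_rat {x : Γ → T} (hx : Ad x) {z : Γ} {ξ : ℝ} (h : Lin (mu z x) 1 ξ) (p : ℚ) :
    Lin (mu (p * z) x) p.den (p * ξ) := by
  intro k
  have := h k
  rw [one_smul, sub_eq_zero, mu] at this
  have h1 : (p.den : Γ) * p = p.num := by exact_mod_cast Rat.den_mul_eq_num p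
  have h2 : (p.den : ℝ) * p = p.num := by exact_mod_cast Rat.den_mul_eq_num p
  rw [smul_sub, mu, ← hx.nsmul, show p.den • (p * z * (2 ^ k)⁻¹) = p.num • (z * (2 ^ k)⁻¹) by
    rw [nsmul_eq_mul, zsmul_eq_mul, ← h1]; ring, hx.zsmul, this, ← AddCircle.coe_nsmul,
    ← AddCircle.coe_zsmul, sub_eq_zero]
  congr 1
  rw [nsmul_eq_mul, zsmul_eq_mul, ← h2]; ring

variable [Countable Γ]

omit [CharZero Γ] in
theorem meas_RR : MeasurableSet (RR Γ) := by
  have e : ∀ (d : ℕ) (x : Γ → T) (ξ : ℝ), Lin x d ξ ↔ Lin (d • x) 1 (d * ξ) := by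
    intro d x ξ
    simp only [Lin, one_smul, Pi.smul_apply, smul_sub, ← AddCircle.coe_nsmul, nsmul_eq_mul,
      mul_div_assoc]
  have : RR Γ = ⋃ d : ℕ, ⋂ k : ℕ, {x | ((d + 1) • x) ((2 ^ k)⁻¹) =
      ((lm ((d + 1) • x) / 2 ^ k : ℝ) : T)} := by
    ext x
    simp only [RR, mem_setOf_eq, mem_iUnion, mem_iInter]
    constructor
    · rintro ⟨d, hd, ξ, h⟩
      obtain ⟨d, rfl⟩ := Nat.exists_eq_succ_of_ne_zero hd.ne'
      rw [e] at h
      refine ⟨d, fun k => ?_⟩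
      rw [lm_eq h]
      simpa only [one_smul, sub_eq_zero] using h k
    · rintro ⟨d, h⟩
      refine ⟨d + 1, d.succ_pos, lm ((d + 1) • x) / (d + 1 : ℕ), (e _ _ _).2 fun k => ?_⟩
      rw [mul_div_cancel₀ _ (by positivity), h k, sub_self, smul_zero]
  rw [this]
  refine MeasurableSet.iUnion fun d => MeasurableSet.iInter fun k => ?_
  have m1 : Measurable fun x : Γ → T => (d + 1) • x := (continuous_nsmul _).measurable
  exact measurableSet_eq_fun ((measurable_pi_apply _).comp m1)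
    ((AddCircle.continuous_mk' 1).measurable.comp ((meas_lm.comp m1).div_const _))

omit [CharZero Γ] in
theorem ui_map {μ : Measure (Γ → T)} (had : ∀ᵐ x ∂μ, Ad x) (hU : UI ι μ) (z : Γ) :
    (∀ᵐ x ∂μ.map (mu z), Ad x) ∧ UI ι (μ.map (mu z)) := by
  refine ⟨(ae_map_iff (meas_mu z).aemeasurable meas_Ad).2 (had.mono fun x hx => ad_mu hx z),
    fun h hh => ⟨meas_mu h, ?_⟩⟩
  rw [Measure.map_map (meas_mu h) (meas_mu z)]
  conv_rhs => rw [← (hU h hh).map_eq, Measure.map_map (meas_mu z) (meas_mu h)]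
  congr 1
  funext x; simp only [Function.comp, mu_mu, mul_comm]

variable (h : Th ι θ) (μ : Measure (Γ → T)) [IsFiniteMeasure μ] (had : ∀ᵐ x ∂μ, Ad x)
  (hU : UI ι μ)
include h had hU

theorem rr_ck : ∀ᵐ x ∂μ, x ∈ RR Γ → ∀ B, x ∈ CK ι (θ (B + 2)!) ((B + 2)! ^ 2) := by
  simp only [imp_forall_iff, ae_all_iff]
  intro B
  have b2 : 2 ≤ (B + 2)! := Nat.le_of_dvd (Nat.factorial_pos _)
    (Nat.dvd_factorial two_pos (by omega))
  obtain ⟨C, c1, c2, c3⟩ := struc (h.1 _ (by omega)) (by nlinarith) (h.2 (B + 2)!) μ had hU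
  have c4 := null_R (μ.restrict Cᶜ) (ae_restrict_of_ae had) fun j hj => by
    simpa using c2 j 0 (by simpa using hj)
  rw [Measure.restrict_apply' c1.compl] at c4
  filter_upwards [had, measure_eq_zero_iff_ae_notMem.1 c4] with x hx d1 d2
  by_contra d3
  exact d1 ⟨d2, fun d4 => d3 ((c3 x hx).1 d4)⟩

theorem rr_all : ∀ᵐ x ∂μ, ∀ z, mu z x ∈ RR Γ →
    ∀ B, mu z x ∈ CK ι (θ (B + 2)!) ((B + 2)! ^ 2) := by
  rw [ae_all_iff]
  intro z
  have := Measure.isFiniteMeasure_map μ (mu z)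
  exact ae_of_ae_map (meas_mu z).aemeasurable
    (rr_ck h (μ.map (mu z)) (ui_map had hU z).1 (ui_map had hU z).2)

theorem four_c (z : Γ) : ∫ x in (mu z ⁻¹' RR Γ)ᶜ, ec (x z) ∂μ = 0 := by
  have := Measure.isFiniteMeasure_map μ (mu z)
  obtain ⟨a1, a2⟩ := ui_map had hU z
  obtain ⟨C, c1, c2, c3⟩ := struc (h.1 2 one_le_two) (by norm_num) (h.2 2) _ a1 a2
  have c4 : C =ᵐ[μ.map (mu z)] RR Γ := by
    filter_upwards [a1, rr_ck h _ a1 a2] with x hx d1
    refine propext ⟨fun d2 => ?_, fun d2 => (c3 x hx).2 (d1 d2 0)⟩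
    obtain ⟨d, d3, ε, d4⟩ := (c3 x hx).1 d2
    exact ⟨d, d3, _, ck_lin (c := 2) two_pos d4⟩
  have c5 := c2 1 0 (by simp)
  rw [setIntegral_congr_set c4.compl, setIntegral_map meas_RR.compl
    (meas_ec _).aestronglyMeasurable (meas_mu z).aemeasurable] at c5
  simpa [mu] using c5

theorem sub_mod : ∀ᵐ x ∂μ, ∃ V : Submodule (sub (θ 2) (2 ^ 2) (h.1 2 one_le_two) (by norm_num)) Γ,
    ∀ z, z ∈ V ↔ mu z x ∈ RR Γ := by
  filter_upwards [had, rr_all h μ had hU] with x hx d1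
  refine ⟨{ carrier := {z | mu z x ∈ RR Γ}, add_mem' := ?_, zero_mem' := ?_, smul_mem' := ?_ },
    fun z => Iff.rfl⟩
  · rintro a b ⟨d, d2, ξ, d3⟩ ⟨e, d4, ζ, d5⟩
    exact ⟨_, Nat.mul_pos d2 d4, _, lin_add hx d3 d5⟩
  · exact ⟨1, one_pos, 0, fun k => by simp [mu, hx.zero]⟩
  · rintro ⟨_, p, q, rfl⟩ z hz
    obtain ⟨ε, d2⟩ := ck_rot (h.1 2 one_le_two) (ad_mu hx z) (d1 z hz 0)
    obtain ⟨d, d3, d4⟩ := d2 p q
    rw [mu_mu, mul_comm] at d4
    exact ⟨d, d3, _, d4⟩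

theorem step {u : Γ} (hu : ‖ι u‖ = 1) (n : ℕ) :
    ∀ᵐ x ∂μ, x ∈ RR Γ → mu (u ^ (n + 1)) x ∈ RR Γ → mu (u ^ n) x ∈ RR Γ := by
  set K := sub (θ 2) (2 ^ 2) (h.1 2 one_le_two) (by norm_num) with hK
  set w : K := ⟨2 * θ 2 - 1, -1, 2, by push_cast; ring⟩ with hw
  have w2 : w ^ 2 = -15 := Subtype.ext (by
    have := h.1 2 one_le_two
    change (2 * θ 2 - 1) ^ 2 = -K.subtype 15
    rw [map_ofNat]
    push_cast at this; linear_combination (-4) * this)
  have u0 : u ≠ 0 := by rintro rfl; simp at hu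
  obtain ⟨t1, t2⟩ := th_re h
  set y : ℕ → Γ := fun t => (1 - ((-(8 / 15 * w) + t : K) : Γ) * u) *
    ∑ i ∈ Finset.range (n + 1), u ^ i * ((8 / 15 * w + t : K) : Γ) ^ (n + 1 - 1 - i) with hy
  have mE : ∀ z : Γ, MeasurableSet (mu z ⁻¹' RR Γ) := fun z => meas_mu z meas_RR
  set A := mu 1 ⁻¹' RR Γ ∩ mu (u ^ (n + 1)) ⁻¹' RR Γ with hA
  have h1 : ∀ t, μ A ≤ μ (mu (y t) ⁻¹' RR Γ) := by
    intro t
    set α : K := 8 / 15 * w + t with hα
    set β : K := -(8 / 15 * w) + t with hβ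
    have a0 : ((8 / 15 * w : K) : Γ) = 8 / 15 * (2 * θ 2 - 1) := by
      change K.subtype (8 / 15) * _ = _
      rw [map_div₀, map_ofNat, map_ofNat]
    have a1 : ι α = ⟨t, 16 / 15 * (ι (θ 2)).im⟩ := by
      rw [hα, AddMemClass.coe_add, a0]
      apply Complex.ext <;> simp [map_ofNat, t1]; ring
    have a2 : ι β = conj (ι α) := by
      rw [a1, hβ, AddMemClass.coe_add, NegMemClass.coe_neg, a0]
      apply Complex.ext <;> simp [map_ofNat, t1]; ring
    have a3 : ‖ι (1 - β * u)‖ = ‖ι (u - α)‖ := by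
      have : ι (1 - β * u) = ι u * conj (ι (u - α)) := by
        rw [map_sub, map_sub, map_sub, map_one, map_mul, a2, mul_sub, Complex.mul_conj,
          Complex.normSq_eq_norm_sq, hu]
        push_cast; ring
      rw [this, norm_mul, hu, one_mul, Complex.norm_conj]
    have a4 : ι (u - α) ≠ 0 := by
      rw [map_sub, sub_ne_zero]
      intro e
      have := Complex.abs_im_le_norm (ι u)
      rw [hu, e, a1, ← sq_le_one_iff_abs_le_one] at this
      simp only at this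
      nlinarith
    have a5 : 1 - β * u ≠ 0 := by
      intro e
      rw [e, map_zero, norm_zero] at a3
      exact a4 (norm_eq_zero.1 a3.symm)
    have a6 : ‖ι ((u - α) / (1 - β * u))‖ = 1 := by
      rw [map_div₀, norm_div, a3, div_self (norm_ne_zero_iff.2 a4)]
    rw [← (hU _ a6).measure_preimage (mE _).nullMeasurableSet]
    refine measure_mono_ae ?_
    filter_upwards [sub_mod h μ had hU] with x ⟨V, hV⟩ hx
    change mu (y t) (mu _ x) ∈ RR Γ
    rw [mu_mu, ← hV, hy, ← mul_assoc, div_mul_cancel₀ _ a5, mul_comm, geom_sum₂_mul]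
    refine V.sub_mem ((hV _).2 hx.2) ?_
    have := V.smul_mem (α ^ (n + 1)) ((hV _).2 hx.1)
    rwa [Subfield.smul_def, smul_eq_mul, mul_one] at this
  have h2 := tendsto_measure_iInter_atTop (μ := μ)
    (s := fun m : ℕ => ⋃ t ≥ m, mu (y t) ⁻¹' RR Γ)
    (fun m => (MeasurableSet.biUnion (to_countable _) fun t _ => mE _).nullMeasurableSet)
    (fun a b hab => biUnion_subset_biUnion_left fun t (ht : b ≤ t) => hab.trans ht)
    ⟨0, measure_ne_top _ _⟩
  have h3 := ge_of_tendsto' h2 fun m => (h1 m).trans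
    (measure_mono (subset_biUnion_of_mem (u := fun t => mu (y t) ⁻¹' RR Γ) (le_refl m)))
  have h4 : μ A ≤ μ (A ∩ mu (u ^ n) ⁻¹' RR Γ) := h3.trans (measure_mono_ae (by
    filter_upwards [sub_mod h μ had hU] with x ⟨V, hV⟩ hx
    obtain ⟨b1, b2, b3⟩ := alg w2 V u0 n (infinite_of_forall_exists_gt fun m => by
      obtain ⟨t, ht, e⟩ := mem_iUnion₂.1 (mem_iInter.1 hx (m + 1))
      exact ⟨t, (hV _).2 e, ht⟩)
    exact ⟨⟨(hV _).1 b1, (hV _).1 b3⟩, (hV _).1 b2⟩))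
  filter_upwards [ae_eq_of_subset_of_measure_ge inter_subset_left h4
    (((mE _).inter (mE _)).inter (mE _)).nullMeasurableSet (measure_ne_top _ _)] with x hx d1 d2
  exact (hx.mpr ⟨by rwa [mem_preimage, mu_one], d2⟩).2

theorem allz (hs : Sp ι) : ∀ᵐ x ∂μ, x ∈ RR Γ → ∀ z, mu z x ∈ RR Γ := by
  have h1 : ∀ᵐ x ∂μ, ∀ u, ‖ι u‖ = 1 → x ∈ RR Γ → mu u x ∈ RR Γ := by
    rw [ae_all_iff]
    intro u
    by_cases hu : ‖ι u‖ = 1
    swap
    · exact Eventually.of_forall fun x h => (hu h).elim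
    filter_upwards [ae_all_iff.2 (step h μ had hU hu),
      (hU u hu).conservative.ae_mem_imp_frequently_image_mem meas_RR.nullMeasurableSet]
      with x d1 d2 _ d3
    obtain ⟨n, d4, d5⟩ := frequently_atTop.1 (d2 d3) 1
    rw [mu_iter] at d5
    rw [← pow_one u]
    exact Nat.decreasingInduction (motive := fun m _ => mu (u ^ m) x ∈ RR Γ)
      (fun m _ e => d1 m d3 e) d5 d4
  filter_upwards [h1, sub_mod h μ had hU] with x d1 ⟨V, hV⟩ d2 z
  obtain ⟨n, hn⟩ := exists_nat_gt ‖ι z‖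
  have n0 : (0 : ℝ) < n := (norm_nonneg _).trans_lt hn
  have n1 : (n : Γ) ≠ 0 := by rintro e; rw [Nat.cast_eq_zero.1 e] at n0; simp at n0
  obtain ⟨u, u', a1, a2, a3⟩ := hs (z / n) (by
    rw [map_div₀, map_natCast, norm_div, Complex.norm_natCast, div_le_iff₀ n0]; linarith)
  rw [← hV, show z = n • (u + u') by rw [← a3, nsmul_eq_mul, mul_div_cancel₀ _ n1]]
  exact nsmul_mem (V.add_mem ((hV _).2 (d1 u a1 d2)) ((hV _).2 (d1 u' a2 d2))) n

end Pool.Agent.H.MP_3d980f_co
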