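import Mathlib
import Pool.Agent.H.MP_3d980f_co.B
import Pool.Agent.H.MP_3d980f_co.D
open MeasureTheory Set Filter Topology ProbabilityTheory Real
open scoped ENNReal Nat ComplexConjugate
open Pool.Agent.H.MP_fc94d9_co Pool.Agent.H.MP_8b2bd9_co
namespace Pool.Agent.H.MP_3d980f_co

variable {Γ : Type} [Field Γ] [CharZero Γ] {ι : Γ →+* ℂ} {θ : ℕ → Γ}

theorem kdense (h : Th ι θ) (w : ℂ) {δ : ℝ} (hδ : 0 < δ) :
    ∃ p q : ℚ, ‖w - ι (p + q * θ 2)‖ ≤ δ := by
  obtain ⟨t1, t2⟩ := th_re h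
  have i0 : (ι (θ 2)).im ≠ 0 := by rintro e; rw [e] at t2; norm_num at t2
  obtain ⟨q, hq⟩ := exists_rat_near (w.im / (ι (θ 2)).im) (show 0 < δ / 4 by positivity)
  obtain ⟨p, hp⟩ := exists_rat_near (w.re - q / 2) (show 0 < δ / 2 by positivity)
  refine ⟨p, q, (Complex.norm_le_abs_re_add_abs_im _).trans ?_⟩
  have e1 : (w - ι (p + q * θ 2)).re = w.re - q / 2 - p := by simp [t1]; ring
  have e2 : (w - ι (p + q * θ 2)).im = (w.im / (ι (θ 2)).im - q) * (ι (θ 2)).im := by
    simp; field_simp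
  have e3 : |(ι (θ 2)).im| ≤ 2 := abs_le_of_sq_le_sq' (by linarith) (by norm_num) |> abs_le.2
  rw [e1, e2, abs_mul]
  nlinarith [abs_nonneg (w.im / (ι (θ 2)).im - q), abs_nonneg (ι (θ 2)).im]

theorem ec_tri (a b : T) : ‖ec (a + b) - 1‖ ≤ ‖ec a - 1‖ + ‖ec b - 1‖ := by
  have : ec (a + b) - 1 = (ec a - 1) + ec a * (ec b - 1) := by rw [ec_add]; ring
  rw [this]
  exact (norm_add_le _ _).trans (by rw [norm_mul, norm_ec, one_mul])

variable [Countable Γ]

theorem full (h : Th ι θ) (hs : Sp ι) (μ : Measure (Γ → T)) [IsFiniteMeasure μ]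
    (had : ∀ᵐ x ∂μ, Ad x) (hU : UI ι μ) : ∃ G : Set (Γ → T), MeasurableSet G ∧
      ∃ ε : (Γ → T) → ℂ, Measurable ε ∧
        ∀ z, z ≠ 0 → ∫ x, ec (x z) ∂μ = ∫ x in G, er (ε x * ι z).re ∂μ := by
  obtain ⟨t1, t2⟩ := th_re h
  have i0 : (ι (θ 2)).im ≠ 0 := by rintro e; rw [e] at t2; norm_num at t2
  set G : Set (Γ → T) := ⋂ z, mu z ⁻¹' RR Γ with hG
  have mG : MeasurableSet G := MeasurableSet.iInter fun z => meas_mu z meas_RR
  set ξ : Γ → (Γ → T) → ℝ := fun z x => lm (mu z x) with hξ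
  have mξ : ∀ z, Measurable (ξ z) := fun z => meas_lm.comp (meas_mu z)
  set ε : (Γ → T) → ℂ := fun x => ⟨ξ 1 x, (ξ 1 x / 2 - ξ (θ 2) x) / (ι (θ 2)).im⟩ with hε
  have mε : Measurable ε := Complex.measurableEquivRealProd.symm.measurable.comp
    ((mξ 1).prodMk ((((mξ 1).div_const _).sub (mξ _)).div_const _))
  refine ⟨G, mG, ε, mε, fun z hz => ?_⟩
  have bd : ∀ (ν : Measure (Γ → T)) [IsFiniteMeasure ν] {f : (Γ → T) → ℂ}, Measurable f →
      (∀ x, ‖f x‖ = 1) → Integrable f ν ∧ Integrable (fun x => ‖f x - 1‖) ν := by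
    intro ν _ f hf h1
    have := Integrable.of_bound (μ := ν) hf.aestronglyMeasurable 1
      (Eventually.of_forall fun x => (h1 x).le)
    exact ⟨this, (this.sub (integrable_const _)).norm⟩
  have mer : ∀ w : ℂ, Measurable fun x => er (ε x * w).re := fun w =>
    cont_er.measurable.comp (Complex.measurable_re.comp (mε.mul_const w))
  have g1 : mu z ⁻¹' RR Γ =ᵐ[μ] G := by
    have := Measure.isFiniteMeasure_map μ (mu z)
    filter_upwards [ae_of_ae_map (meas_mu z).aemeasurable
      (allz h (μ.map (mu z)) (ui_map had hU z).1 (ui_map had hU z).2 hs)] with x hx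
    refine propext ⟨fun d => mem_iInter.2 fun v => ?_, fun d => mem_iInter.1 d z⟩
    have := hx d (z⁻¹ * v)
    rwa [mu_mu, mul_inv_cancel_left₀ hz] at this
  have g2 : ∀ᵐ x ∂μ.restrict G, Ad x ∧ ∀ p q : ℚ,
      x (p + q * θ 2) = ((ε x * ι (p + q * θ 2)).re : ℝ) := by
    rw [ae_restrict_iff' mG]
    filter_upwards [had, rr_all h μ had hU] with x hx d1 d2
    have d3 : ∀ v, Lin (mu v x) 1 (ξ v x) := fun v => by
      obtain ⟨d, d4, ζ, d5⟩ := mem_iInter.1 d2 v
      have := lin_one (ad_mu hx v) (d1 v ⟨d, d4, ζ, d5⟩) d4 d5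
      rwa [← lm_eq this] at this
    have d4 : ∀ (p : ℚ) v, x (p * v) = ((p * ξ v x : ℝ) : T) := fun p v => by
      have := d3 (p * v) 0
      rw [uniq1 one_pos p.pos (d3 (p * v)) (lin_rat hx (d3 v) p)] at this
      simpa [mu, sub_eq_zero] using this
    refine ⟨hx, fun p q => ?_⟩
    rw [hx, ← mul_one (p : Γ), d4, d4, ← AddCircle.coe_add]
    congr 1
    simp [hε, t1]; field_simp; ring
  have g3 : ∀ u, ‖ι u‖ = 1 → MeasurePreserving (mu u) (μ.restrict G) (μ.restrict G) := by
    intro u hu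
    have u0 : u ≠ 0 := by rintro rfl; simp at hu
    have := (hU u hu).restrict_preimage mG
    rwa [show mu u ⁻¹' G = G from ?_] at this
    ext x
    simp only [hG, mem_preimage, mem_iInter, mu_mu]
    exact ⟨fun d v => by simpa [u0] using d (u⁻¹ * v), fun d v => d _⟩
  rw [← integral_add_compl mG (bd μ (meas_ec z) fun _ => norm_ec _).1,
    ← setIntegral_congr_set g1.compl, four_c h μ had hU z, add_zero, ← sub_eq_zero,
    ← integral_sub (bd _ (meas_ec z) fun _ => norm_ec _).1 (bd _ (mer _) fun _ => norm_er _).1,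
    ← norm_le_zero_iff]
  have g4 : ∀ w : ℕ → ℂ, Tendsto w atTop (𝓝 0) →
      Tendsto (fun n => ∫ x in G, ‖er (ε x * w n).re - 1‖ ∂μ) atTop (𝓝 0) := by
    intro w hw
    have := tendsto_integral_of_dominated_convergence (μ := μ.restrict G) (f := fun _ => (0 : ℝ))
      (F := fun n x => ‖er (ε x * w n).re - 1‖) (fun _ => 1 + 1)
      (fun n => (bd _ (mer _) fun _ => norm_er _).2.aestronglyMeasurable) (integrable_const _)
      (fun n => Eventually.of_forall fun x => by
        rw [norm_norm]; exact (norm_sub_le _ _).trans (by rw [norm_er]; simp))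
      (Eventually.of_forall fun x => by
        have hc : Continuous fun w : ℂ => ‖er (ε x * w).re - 1‖ := by fun_prop
        have := (hc.tendsto 0).comp hw
        simpa [er, ec_zero, Function.comp_def] using this)
    simpa using this
  choose p q hpq using fun n : ℕ => kdense h (ι z) (δ := 2 / ((n : ℝ) + 1)) (by positivity)
  have l0 := tendsto_one_div_add_atTop_nhds_zero_nat (𝕜 := ℝ)
  have l1 := g4 (fun n => ((1 / ((n : ℝ) + 1) : ℝ) : ℂ)) (by
    simpa [Function.comp_def] using (Complex.continuous_ofReal.tendsto 0).comp l0)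
  have l2 := g4 (fun n => -(ι z - ι (p n + q n * θ 2))) (by
    rw [tendsto_zero_iff_norm_tendsto_zero]
    refine squeeze_zero (fun _ => norm_nonneg _) (fun n => (norm_neg _).trans_le (hpq n)) ?_
    simpa [div_eq_mul_inv] using l0.const_mul 2)
  have l3 := (l1.add l1).add l2
  rw [add_zero, add_zero] at l3
  refine ge_of_tendsto' l3 fun n => ?_
  set r : ℚ := 1 / (n + 1) with hr
  have n1 : ((n : Γ) + 1) ≠ 0 := by exact_mod_cast n.succ_ne_zero
  obtain ⟨u, u', a1, a2, a3⟩ := hs ((n + 1) * (z - (p n + q n * θ 2))) (by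
    have := hpq n
    rw [le_div_iff₀ (by positivity)] at this
    rw [map_mul, norm_mul, map_sub ι z, map_add, map_natCast, map_one, mul_comm,
      ← Nat.cast_succ, Complex.norm_natCast, Nat.cast_succ]
    exact this)
  have a4 : z = (p n + q n * θ 2) + (u * r + u' * r) := by
    rw [← add_mul, ← a3, hr]; push_cast; field_simp; ring
  have a5 : ∀ v, ‖ι v‖ = 1 → ∫ x in G, ‖ec (x (v * r)) - 1‖ ∂μ =
      ∫ x in G, ‖er (ε x * ((1 / ((n : ℝ) + 1) : ℝ) : ℂ)).re - 1‖ ∂μ := by
    intro v hv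
    have m1 : Measurable fun x : Γ → T => ‖ec (x r) - 1‖ := ((meas_ec _).sub_const _).norm
    have := integral_map (μ := μ.restrict G) (meas_mu v).aemeasurable m1.aestronglyMeasurable
    rw [(g3 v hv).map_eq] at this
    refine this.symm.trans (integral_congr_ae ?_)
    filter_upwards [g2] with x hx
    have := hx.2 r 0
    simp only [Rat.cast_zero, zero_mul, add_zero, map_ratCast] at this
    rw [this, er, hr]; push_cast; rfl
  have i1 := fun v : Γ => (bd (μ.restrict G) (meas_ec v) fun _ => norm_ec _).2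
  rw [← a5 u a1]
  nth_rw 2 [a5 u a1]
  rw [← a5 u' a2, ← integral_add' (i1 _) (i1 _), ← integral_add' ((i1 _).add (i1 _))
    (bd _ (mer _) fun _ => norm_er _).2]
  refine norm_integral_le_of_norm_le (((i1 _).add (i1 _)).add
    (bd _ (mer _) fun _ => norm_er _).2) ?_
  filter_upwards [g2] with x hx
  have b1 : ec (x z) - er (ε x * ι z).re = er (ε x * ι z).re * (ec (x (u * r) + x (u' * r) +
      ((ε x * -(ι z - ι (p n + q n * θ 2))).re : ℝ)) - 1) := by
    rw [mul_sub, mul_one, er, ← ec_add]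
    congr 2
    conv_lhs => rw [a4, hx.1, hx.1 (u * r), hx.2]
    rw [add_comm (x (u * r) + x (u' * r)) (((_ : ℝ) : T)), ← add_assoc (((ε x * ι z).re : ℝ) : T),
      ← AddCircle.coe_add]
    congr 2
    rw [← Complex.add_re]; congr 1; ring
  rw [b1, norm_mul, norm_er, one_mul]
  exact (ec_tri _ _).trans (add_le_add (ec_tri _ _) le_rfl)

theorem spec (h : Th ι θ) (hs : Sp ι) (μ : Measure (Γ → T)) [IsProbabilityMeasure μ]
    (had : ∀ᵐ x ∂μ, Ad x) (hU : UI ι μ) : ∃ Φ : ℂ → ℝ, Continuous Φ ∧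
      (∀ z, z ≠ 0 → ∫ x, (ec (x z)).re ∂μ = Φ (ι z)) ∧ ∀ a b, a ≠ 0 → 2 * ‖ι a‖ ≤ ‖ι b‖ →
        -(33 / 100) ≤ 1 / 5 * Φ (ι a) + 4 / 5 * Φ (ι b) := by
  obtain ⟨G, mG, ε, mε, hF⟩ := full h hs μ had hU
  obtain ⟨t1, t2⟩ := th_re h
  set σ := 2 * (ι (θ 2)).im with hσ
  have s2 : σ ^ 2 = 15 := by rw [hσ]; linarith
  have s0 : σ ≠ 0 := by rintro e; rw [e] at s2; norm_num at s2
  set Φ : ℂ → ℂ := fun w => ∫ x in G, er (ε x * w).re ∂μ with hΦ
  have mer : ∀ w : ℂ, Measurable fun x => er (ε x * w).re := fun w =>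
    cont_er.measurable.comp (Complex.measurable_re.comp (mε.mul_const w))
  have cΦ : Continuous Φ := continuous_of_dominated (bound := fun _ => 1)
    (fun s => (mer s).aestronglyMeasurable)
    (fun _ => Eventually.of_forall fun _ => (norm_er _).le) (integrable_const _)
    (Eventually.of_forall fun _ => by fun_prop)
  have rad : ∀ z, z ≠ 0 → 2 * π * Φ (ι z) = ∫ x in G, Jr (‖ι z‖ * ‖ε x‖) ∂μ := by
    intro z hz
    have b1 : ∀ al be : ℚ, al ^ 2 + 15 * be ^ 2 = 1 → Φ (ι z * ⟨al, be * σ⟩) = Φ (ι z) := by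
      intro al be e
      have e' : (al : ℝ) ^ 2 + 15 * be ^ 2 = 1 := by exact_mod_cast e
      set u : Γ := ((al - be : ℚ) : Γ) + (2 * be : ℚ) * θ 2 with hud
      have e1 : ι u = ⟨al, be * σ⟩ := by
        apply Complex.ext <;> simp [hud, hσ, t1, map_ofNat] <;> ring
      have hu : ‖ι u‖ = 1 := by
        rw [← sq_eq_sq₀ (norm_nonneg _) zero_le_one, Complex.sq_norm, e1, Complex.normSq_mk]
        linear_combination e' + (be : ℝ) ^ 2 * s2
      have u0 : u ≠ 0 := by rintro h; simp [h] at hu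
      rw [← e1, mul_comm, ← map_mul]
      exact (hF _ (mul_ne_zero u0 hz)).symm.trans
        ((mp_int (hU u hu) (meas_ec z)).trans (hF z hz))
    have b2 : ∀ t : ℝ, Φ (ι z * ⟨(1 - 15 * t ^ 2) / (1 + 15 * t ^ 2),
        2 * t / (1 + 15 * t ^ 2) * σ⟩) = Φ (ι z) := by
      intro t
      refine Rat.denseRange_cast.induction_on t
        (isClosed_eq (cΦ.comp (continuous_const.mul ?_)) continuous_const) fun t => ?_
      · have : ∀ t : ℝ, 1 + 15 * t ^ 2 ≠ 0 := fun t => by positivity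
        simp only [Complex.mk_eq_add_mul_I]
        fun_prop (disch := exact this _)
      · have := b1 ((1 - 15 * t ^ 2) / (1 + 15 * t ^ 2)) (2 * t / (1 + 15 * t ^ 2)) (by
          field_simp; ring)
        push_cast at this
        exact this
    have b3 : ∀ v ∈ Ioo (-π) π, Φ (ι z * ⟨cos v, sin v⟩) = Φ (ι z) := by
      intro v hv
      have b0 : cos v ≠ -1 := by
        have : 0 < cos (v / 2) := cos_pos_of_mem_Ioo ⟨by linarith [hv.1], by linarith [hv.2]⟩
        have b := cos_sq (v / 2)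
        rw [show 2 * (v / 2) = v by ring] at b
        intro h; rw [h] at b; nlinarith
      have d1 := b2 (tan (v / 2) / σ)
      have d2 : 15 * (tan (v / 2) / σ) ^ 2 = tan (v / 2) ^ 2 := by
        rw [div_pow, s2]; field_simp
      rw [d2, ← cos_eq_two_mul_tan_half_div_one_sub_tan_half_sq v b0] at d1
      rw [sin_eq_two_mul_tan_half_div_one_add_tan_half_sq, ← d1]
      congr 3; field_simp
    have b4 : ∫ v in (-π)..π, Φ (ι z * ⟨cos v, sin v⟩) = 2 * π * Φ (ι z) := by
      rw [intervalIntegral.integral_of_le (neg_le_self pi_pos.le), integral_Ioc_eq_integral_Ioo,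
        setIntegral_congr_fun measurableSet_Ioo b3, ← integral_Ioc_eq_integral_Ioo,
        ← intervalIntegral.integral_of_le (neg_le_self pi_pos.le), intervalIntegral.integral_const]
      simp [two_mul]
    have : IsFiniteMeasure (volume.restrict (uIoc (-π) π)) :=
      isFiniteMeasure_restrict.2 (by rw [uIoc]; exact measure_Ioc_lt_top.ne)
    have hm : Measurable (Function.uncurry fun (v : ℝ) (x : Γ → T) =>
        er (ε x * (ι z * ⟨cos v, sin v⟩)).re) := by
      refine cont_er.measurable.comp (Complex.measurable_re.comp ?_)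
      have m1 : Measurable fun p : ℝ × (Γ → T) => ε p.2 := mε.comp measurable_snd
      simp only [Complex.mk_eq_add_mul_I]
      fun_prop
    rw [← b4]
    simp only [hΦ]
    rw [intervalIntegral_integral_swap (Integrable.of_bound hm.aestronglyMeasurable 1
      (Eventually.of_forall fun _ => (norm_er _).le))]
    refine integral_congr_ae (Eventually.of_forall fun x => ?_)
    dsimp only
    have e := Jr_rot 1 (ε x * ι z).re (-(ε x * ι z).im)
    rw [show (⟨(ε x * ι z).re, -(ε x * ι z).im⟩ : ℂ) = conj (ε x * ι z) from rfl,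
      Complex.norm_conj, norm_mul, one_mul, mul_comm ‖ε x‖] at e
    rw [← e]
    refine intervalIntegral.integral_congr fun v _ => ?_
    congr 1
    rw [← mul_assoc, Complex.mul_re]; ring
  have iJ : ∀ c : ℝ, Integrable (fun x => Jr (c * ‖ε x‖)) (μ.restrict G) := fun c =>
    Integrable.of_bound (Jr_cont.measurable.comp (mε.norm.const_mul _)).aestronglyMeasurable _
      (Eventually.of_forall fun x => Jr_le _)
  have rad2 : ∀ z, z ≠ 0 → 2 * π * (Φ (ι z)).re = ∫ x in G, (Jr (‖ι z‖ * ‖ε x‖)).re ∂μ := by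
    intro z hz
    have e3 := integral_re (iJ ‖ι z‖)
    simp only [RCLike.re_to_complex] at e3
    rw [e3, ← rad z hz, show (2 * π : ℂ) = ((2 * π : ℝ) : ℂ) by push_cast; rfl,
      Complex.re_ofReal_mul]
  refine ⟨fun w => (Φ w).re, Complex.continuous_re.comp cΦ, fun z hz => ?_, fun a b ha hab => ?_⟩
  · have e2 := integral_re (μ := μ) (Integrable.of_bound (meas_ec z).aestronglyMeasurable 1
      (Eventually.of_forall fun x => (norm_ec _).le))
    simp only [RCLike.re_to_complex] at e2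
    rw [e2, hF z hz]
  · have a0 : 0 < ‖ι a‖ := norm_pos_iff.2 ((map_ne_zero ι).2 ha)
    have hb : b ≠ 0 := by rintro rfl; simp at hab; linarith
    have i1 := fun c => ((iJ c).re (𝕜 := ℂ))
    simp only [RCLike.re_to_complex] at i1
    have e1 := integral_mono (μ := μ.restrict G) (integrable_const (-(33 / 100) * (2 * π)))
      (((i1 ‖ι a‖).const_mul (1 / 5)).add ((i1 ‖ι b‖).const_mul (4 / 5))) fun x => by
        have := bes (κ := ‖ι b‖ / ‖ι a‖) (ρ := ‖ι a‖ * ‖ε x‖) ((le_div_iff₀ a0).2 hab)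
          (by positivity)
        rwa [← mul_assoc (‖ι b‖ / ‖ι a‖), div_mul_cancel₀ _ a0.ne'] at this
    simp only [Pi.add_apply] at e1
    rw [integral_add ((i1 _).const_mul _) ((i1 _).const_mul _), integral_const, smul_eq_mul,
      integral_const_mul, integral_const_mul, ← rad2 a ha, ← rad2 b hb,
      measureReal_restrict_apply_univ] at e1
    have e2 : μ.real G ≤ 1 := measureReal_le_one
    have e3 := two_pi_pos
    dsimp only
    nlinarith

end Pool.Agent.H.MP_3d980f_co
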