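import Mathlib
import Pool.Agent.H.MP_3d980f_co.E
open MeasureTheory Set Filter Topology ProbabilityTheory
open scoped ENNReal Nat ComplexConjugate
namespace Pool.Agent.H.MP_3d980f_co

abbrev Z (Γ : Type) := Γ → Icc (-1 : ℝ) 1

variable {Γ : Type} [Field Γ] {ι : Γ →+* ℂ}

def tr (a : Γ) (y : Z Γ) : Z Γ := fun z => y (z + a)
def rot (u : Γ) (y : Z Γ) : Z Γ := fun z => y (u * z)
def tf (a b c : Γ) (y : Z Γ) : ℝ := y a * y b + y b * y c + y a * y c + 1

theorem cont_tr (a : Γ) : Continuous (tr a) := continuous_pi fun z => continuous_apply (z + a)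
theorem cont_rot (a : Γ) : Continuous (rot a) := continuous_pi fun z => continuous_apply (a * z)

omit [Field Γ] in
theorem cont_v (z : Γ) : Continuous fun y : Z Γ => (y z : ℝ) :=
  continuous_subtype_val.comp (continuous_apply z)

omit [Field Γ] in
theorem cont_vv (a b : Γ) : Continuous fun y : Z Γ => (y a : ℝ) * y b := (cont_v a).mul (cont_v b)

omit [Field Γ] in
theorem cont_tf (a b c : Γ) : Continuous (tf a b c) :=
  (((cont_vv _ _).add (cont_vv _ _)).add (cont_vv _ _)).add continuous_const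

omit [Field Γ] in
theorem tf_eq (a b c : Γ) (y : Z Γ) : tf a b c y = ((1 + y a) * (1 + y b) * (1 + y c) +
    (1 - y a) * (1 - y b) * (1 - y c)) / 2 := by rw [tf]; ring

omit [Field Γ] in
theorem pos1 (y : Z Γ) (a : Γ) : 0 ≤ 1 + (y a : ℝ) ∧ 0 ≤ 1 - (y a : ℝ) :=
  ⟨by linarith [(y a).2.1], by linarith [(y a).2.2]⟩

omit [Field Γ] in
theorem tf_nonneg (a b c : Γ) (y : Z Γ) : 0 ≤ tf a b c y := by
  rw [tf_eq]
  have := pos1 y a; have := pos1 y b; have := pos1 y c
  have h1 := mul_nonneg (mul_nonneg (pos1 y a).1 (pos1 y b).1) (pos1 y c).1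
  have h2 := mul_nonneg (mul_nonneg (pos1 y a).2 (pos1 y b).2) (pos1 y c).2
  linarith

variable [Countable Γ]

omit [Field Γ] in
theorem int_tf (P : Measure (Z Γ)) [IsProbabilityMeasure P] (a b c : Γ) : ∫ y, tf a b c y ∂P =
    ∫ y, (y a : ℝ) * y b ∂P + ∫ y, (y b : ℝ) * y c ∂P + ∫ y, (y a : ℝ) * y c ∂P + 1 := by
  simp only [tf]
  have i1 := itg (cont_vv a b) P
  have i2 := itg (cont_vv b c) P
  have i3 := itg (cont_vv a c) P
  have i4 : Integrable (fun y : Z Γ => (y a : ℝ) * y b + y b * y c) P := i1.add i2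
  have i5 : Integrable (fun y : Z Γ => (y a : ℝ) * y b + y b * y c + y a * y c) P := i4.add i3
  rw [integral_add i5 (integrable_const _), integral_add i4 i3, integral_add i1 i2]
  simp

omit [Field Γ] [Countable Γ] in
theorem mpi {P : Measure (Z Γ)} {f : Z Γ → Z Γ} (h : MeasurePreserving f P P) {g : Z Γ → ℝ}
    (hg : Measurable g) : ∫ x, g (f x) ∂P = ∫ x, g x ∂P := by
  conv_rhs => rw [← h.map_eq]
  exact (integral_map h.measurable.aemeasurable hg.aestronglyMeasurable).symm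

omit [Field Γ] in
theorem mp_of {P : Measure (Z Γ)} [IsFiniteMeasure P] {f : Z Γ → Z Γ} (hf : Continuous f)
    (h : ∀ g : C(Z Γ, ℝ), ∫ x, g (f x) ∂P = ∫ x, g x ∂P) : MeasurePreserving f P P := by
  refine ⟨hf.measurable, ext_of_forall_integral_eq_of_IsFiniteMeasure fun g => ?_⟩
  rw [integral_map hf.measurable.aemeasurable g.continuous.aestronglyMeasurable]
  exact h g.toContinuousMap

theorem exP (col : Γ → Bool) (𝒯 : Set (Γ × Γ)) (h : ∀ t ∈ 𝒯, ∀ x u, ‖ι u‖ = 1 →
    ¬ (col x = col (x + u * t.1) ∧ col x = col (x + u * t.2))) :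
    ∃ P : ProbabilityMeasure (Z Γ), (∀ a, MeasurePreserving (tr a) (P : Measure (Z Γ)) P) ∧
      (∀ u, ‖ι u‖ = 1 → MeasurePreserving (rot u) (P : Measure (Z Γ)) P) ∧
      ∫ y, (y 0 : ℝ) * y 0 ∂(P : Measure (Z Γ)) = 1 ∧
      ∀ t ∈ 𝒯, ∫ y, tf 0 t.1 t.2 y ∂(P : Measure (Z Γ)) = 0 := by
  set F : Γ ⊕ 𝒯 × Γ × {u : Γ // ‖ι u‖ = 1} → Z Γ → ℝ := Sum.elim (fun z y => (y z : ℝ) * y z)
    fun s => tf s.2.1 (s.2.1 + s.2.2.1 * s.1.1.1) (s.2.1 + s.2.2.1 * s.1.1.2) with hF
  have cF : ∀ j, Continuous (F j) := by rintro (s | s); exacts [cont_vv s s, cont_tf _ _ _]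
  obtain ⟨P1, a1, a2⟩ := mk (fun a : Γ => tr a) cont_tr
    (fun u v x => by funext z; simp only [tr, add_right_comm]) F cF
    (Sum.elim (fun _ => 1) fun _ => 0)
    ⟨Measure.dirac fun z => if col z then ⟨1, by norm_num⟩ else ⟨-1, by norm_num⟩, inferInstance⟩
    (by
      rintro (s | ⟨t, x, u⟩)
      · simp only [hF, Sum.elim_inl, ProbabilityMeasure.coe_mk, integral_dirac]
        cases col s <;> simp
      · have := h t.1 t.2 x u.1 u.2
        simp only [hF, Sum.elim_inr, ProbabilityMeasure.coe_mk, integral_dirac, tf]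
        revert this
        cases col x <;> cases col (x + u.1 * t.1.1) <;> cases col (x + u.1 * t.1.2) <;> simp)
    (by
      rintro a ν h (s | ⟨t, x, u⟩)
      · exact h (.inl (s + a))
      · simpa only [hF, Sum.elim_inr, tf, tr, add_right_comm] using h (.inr (t, x + a, u)))
  obtain ⟨P, b1, b2⟩ := mk (fun u : {u : Γ // ‖ι u‖ = 1} => rot u.1) (fun u => cont_rot u.1)
    (fun u v x => by funext z; simp only [rot, mul_left_comm])
    (J := _ ⊕ Γ × C(Z Γ, ℝ)) (Sum.elim F fun s y => s.2 (tr s.1 y) - s.2 y)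
    (by
      rintro (s | s)
      exacts [cF s, (s.2.continuous.comp (cont_tr _)).sub s.2.continuous])
    (Sum.elim (Sum.elim (fun _ => 1) fun _ => 0) fun _ => 0) P1
    (by
      rintro (s | s)
      · exact a1 s
      · simp only [Sum.elim_inr]
        have i1 : Integrable (fun y => s.2 (tr s.1 y)) (P1 : Measure (Z Γ)) :=
          itg (s.2.continuous.comp (cont_tr _)) _
        rw [integral_sub i1 (itg s.2.continuous _),
          mpi (a2 s.1) s.2.continuous.measurable, sub_self])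
    (by
      rintro v ν h ((s | ⟨t, x, u⟩) | s)
      · exact h (.inl (.inl (v.1 * s)))
      · simpa only [hF, Sum.elim_inr, Sum.elim_inl, tf, rot, mul_add, mul_assoc] using
          h (.inl (.inr (t, v.1 * x, ⟨v.1 * u.1, by rw [map_mul, norm_mul, v.2, u.2, one_mul]⟩)))
      · have e : ∀ y, tr s.1 (rot v.1 y) = rot v.1 (tr (v.1 * s.1) y) := fun y => by
          funext z; simp only [tr, rot, mul_add]
        simp only [Sum.elim_inr, e]
        exact h (.inr (v.1 * s.1, s.2.comp ⟨_, cont_rot v.1⟩)))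
  refine ⟨P, fun a => mp_of (cont_tr a) fun g => ?_, fun u hu => b2 ⟨u, hu⟩, b1 (.inl (.inl 0)),
    fun t ht => ?_⟩
  · have := b1 (.inr (a, g))
    simp only [Sum.elim_inr] at this
    have i1 : Integrable (fun y => g (tr a y)) (P : Measure (Z Γ)) :=
      itg (g.continuous.comp (cont_tr _)) _
    rwa [integral_sub i1 (itg g.continuous _), sub_eq_zero] at this
  · simpa [hF] using b1 (.inl (.inr (⟨t, ht⟩, 0, ⟨1, by simp⟩)))

theorem two_pt {P : Measure (Z Γ)} (h : ∀ a, MeasurePreserving (tr a) P P) (a b : Γ) :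
    ∫ y, (y a : ℝ) * y b ∂P = ∫ y, (y 0 : ℝ) * y (b - a) ∂P := by
  rw [← mpi (h a) (cont_vv 0 (b - a)).measurable]
  simp only [tr, zero_add, sub_add_cancel]

theorem pd {P : Measure (Z Γ)} [IsFiniteMeasure P] (h : ∀ a, MeasurePreserving (tr a) P P)
    (J : Type) [Fintype J] (β : J → Γ) (w : J → ℂ) : 0 ≤ (∑ g, ∑ g', w g * conj (w g') *
      ((∫ y, (y 0 : ℝ) * y (β g - β g') ∂P : ℝ) : ℂ)).re := by
  simp only [Complex.re_sum, Complex.re_mul_ofReal, ← two_pt h, ← integral_const_mul]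
  have i1 : ∀ g g', Integrable (fun y : Z Γ => (w g * conj (w g')).re * (y (β g') * y (β g))) P :=
    fun g g' => (itg (cont_vv _ _) P).const_mul _
  simp only [← integral_finsetSum _ fun g' _ => i1 _ g']
  rw [← integral_finsetSum _ fun g _ => integrable_finsetSum _ fun g' _ => i1 g g']
  refine integral_nonneg fun y => ?_
  have := Complex.normSq_nonneg (∑ g, w g * (y (β g) : ℝ))
  rw [← Complex.ofReal_re (Complex.normSq _), ← Complex.mul_conj, map_sum, Finset.sum_mul_sum,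
    Complex.re_sum] at this
  refine this.trans_eq (Finset.sum_congr rfl fun g _ => ?_)
  rw [Complex.re_sum]
  refine Finset.sum_congr rfl fun g' _ => ?_
  rw [← Complex.re_mul_ofReal, map_mul, Complex.conj_ofReal]
  congr 1; push_cast; ring

theorem dbl_avg {K : ℕ} (hK : 0 < K) (f : ℕ → ℕ → ℝ) {L ε C : ℝ} (hε : 0 ≤ ε)
    (h1 : ∀ n m, |f n m - L| ≤ C) (h2 : ∀ n, ∃ m0, ∀ m, m ≠ m0 → |f n m - L| ≤ ε) :
    |(∑ n ∈ Finset.range K, ∑ m ∈ Finset.range K, f n m) / (K * K) - L| ≤ ε + C / K := by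
  have K0 : (0 : ℝ) < K := by exact_mod_cast hK
  have C0 : 0 ≤ C := (abs_nonneg _).trans (h1 0 0)
  have e : (∑ n ∈ Finset.range K, ∑ m ∈ Finset.range K, f n m) / (K * K) - L =
      (∑ n ∈ Finset.range K, ∑ m ∈ Finset.range K, (f n m - L)) / (K * K) := by
    simp only [Finset.sum_sub_distrib, Finset.sum_const, Finset.card_range, nsmul_eq_mul]
    field_simp
  rw [e, abs_div, abs_of_pos (mul_pos K0 K0), div_le_iff₀ (mul_pos K0 K0)]
  refine (Finset.abs_sum_le_sum_abs _ _).trans ?_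
  have := Finset.sum_le_card_nsmul (Finset.range K)
    (fun n => |∑ m ∈ Finset.range K, (f n m - L)|) (K * ε + C) fun n _ => by
      obtain ⟨m0, h3⟩ := h2 n
      refine (Finset.abs_sum_le_sum_abs _ _).trans ((Finset.sum_le_sum
        (g := fun m => ε + if m0 = m then C else 0) fun m _ => ?_).trans ?_)
      · split_ifs with h4
        · linarith [h1 n m]
        · linarith [h3 m (Ne.symm h4)]
      · rw [Finset.sum_add_distrib, Finset.sum_ite_eq, Finset.sum_const, Finset.card_range,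
          nsmul_eq_mul]
        split_ifs <;> linarith
  rw [Finset.card_range, nsmul_eq_mul] at this
  refine this.trans (le_of_eq ?_)
  field_simp

variable [CharZero Γ]

noncomputable def Ψ (N : ℕ) (y : Z Γ) : Z Γ := fun z =>
  ⟨(∑ n ∈ Finset.range (N + 1), (y (z + ((N + 1 + n : ℕ) : Γ)⁻¹) : ℝ)) / (N + 1 : ℕ), by
    rw [mem_Icc, ← abs_le, abs_div, Nat.abs_cast, div_le_one (by positivity)]
    refine (Finset.abs_sum_le_sum_abs _ _).trans ?_
    simpa using Finset.sum_le_card_nsmul (Finset.range (N + 1))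
      (fun n => |(y (z + ((N + 1 + n : ℕ) : Γ)⁻¹) : ℝ)|) 1 fun n _ => abs_le.2 (y _).2⟩

omit [Countable Γ] [CharZero Γ] in
theorem cont_Ψ (N : ℕ) : Continuous (Ψ (Γ := Γ) N) :=
  continuous_pi fun _ => Continuous.subtype_mk
    ((continuous_finsetSum _ fun _ _ => cont_v _).div_const _) _

theorem exQ (P : ProbabilityMeasure (Z Γ))
    (h : ∀ a, MeasurePreserving (tr a) (P : Measure (Z Γ)) P) {Φ : ℂ → ℝ} (hΦ : Continuous Φ)
    (h2 : ∀ z, z ≠ 0 → ∫ y, (y 0 : ℝ) * y z ∂(P : Measure (Z Γ)) = Φ (ι z)) :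
    ∃ Q : ProbabilityMeasure (Z Γ), (∀ a, MeasurePreserving (tr a) (Q : Measure (Z Γ)) Q) ∧
      ∀ a b, ∫ y, (y a : ℝ) * y b ∂(Q : Measure (Z Γ)) = Φ (ι (b - a)) := by
  set R : ℕ → ProbabilityMeasure (Z Γ) := fun N => P.map (cont_Ψ N).measurable.aemeasurable with hR
  obtain ⟨Q, -, hQ⟩ := isCompact_univ.ultrafilter_le_nhds ((hyperfilter ℕ).map R) (by simp)
  have e : ∀ g : Z Γ → ℝ, Continuous g → Tendsto (fun N => ∫ y, g (Ψ N y) ∂(P : Measure (Z Γ)))
      (hyperfilter ℕ) (𝓝 (∫ y, g y ∂(Q : Measure (Z Γ)))) := fun g hg =>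
    (((cin hg).tendsto Q).comp hQ).congr fun N =>
      integral_map (cont_Ψ N).measurable.aemeasurable hg.aestronglyMeasurable
  refine ⟨Q, fun a => mp_of (cont_tr a) fun g => ?_, fun a b => ?_⟩
  · refine tendsto_nhds_unique (e (fun y => g (tr a y)) (g.continuous.comp (cont_tr a)))
      ((e g g.continuous).congr fun N => ?_)
    rw [← mpi (h a) (g := fun y => g (Ψ N y)) (g.continuous.comp (cont_Ψ N)).measurable]
    congr 1; funext y; congr 1; funext z
    simp only [Ψ, tr, add_right_comm]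
  refine tendsto_nhds_unique (e _ (cont_vv a b)) (Tendsto.mono_left ?_ Nat.hyperfilter_le_atTop)
  rw [Metric.tendsto_atTop]
  intro ε hε
  obtain ⟨δ, δ0, hδ⟩ := Metric.continuous_iff.1 hΦ (ι (b - a)) (ε / 3) (by positivity)
  obtain ⟨N0, hN⟩ := exists_nat_gt (max (2 / δ) ((1 + |Φ (ι (b - a))|) / (ε / 3)))
  refine ⟨N0, fun N hN' => ?_⟩
  have N1 : (N0 : ℝ) < (N + 1 : ℕ) := by exact_mod_cast Nat.lt_succ_of_le hN'
  have N2 := ((le_max_left _ _).trans_lt hN).trans N1
  have N3 := ((le_max_right _ _).trans_lt hN).trans N1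
  have N4 : (0 : ℝ) < (N + 1 : ℕ) := by positivity
  set c : ℕ → Γ := fun n => ((N + 1 + n : ℕ) : Γ)⁻¹ with hc
  have c1 : ∀ n, ‖ι (c n)‖ < δ / 2 := fun n => by
    rw [hc, map_inv₀, map_natCast, norm_inv, Complex.norm_natCast, ← inv_div]
    exact inv_strictAnti₀ (by positivity) (N2.trans_le (by exact_mod_cast Nat.le_add_right _ _))
  have e1 : ∫ y, (Ψ N y a : ℝ) * Ψ N y b ∂(P : Measure (Z Γ)) =
      (∑ n ∈ Finset.range (N + 1), ∑ m ∈ Finset.range (N + 1),
        ∫ y, (y 0 : ℝ) * y (b + c m - (a + c n)) ∂(P : Measure (Z Γ))) /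
          ((N + 1 : ℕ) * (N + 1 : ℕ)) := by
    simp only [Ψ, div_mul_div_comm, Finset.sum_mul_sum, ← two_pt h]
    rw [integral_div, integral_finsetSum _ fun n _ =>
      integrable_finsetSum _ fun m _ => itg (cont_vv _ _) _]
    simp only [integral_finsetSum _ fun m _ => itg (cont_vv _ _) _]
    rfl
  rw [Real.dist_eq, e1]
  refine (dbl_avg (ε := ε / 3) (C := 1 + |Φ (ι (b - a))|) N.succ_pos _ (by positivity)
    (fun n m => (abs_sub _ _).trans ?_) fun n => ?_).trans_lt ?_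
  · have := norm_integral_le_of_norm_le_const (μ := (P : Measure (Z Γ))) (C := 1)
      (f := fun y => (y 0 : ℝ) * y (b + c m - (a + c n))) (Eventually.of_forall fun y => by
        rw [norm_mul]
        exact mul_le_one₀ (abs_le.2 (y _).2) (norm_nonneg _) (abs_le.2 (y _).2))
    simpa using this
  · have k1 : ∀ m, b + c m - (a + c n) ≠ 0 →
        |∫ y, (y 0 : ℝ) * y (b + c m - (a + c n)) ∂(P : Measure (Z Γ)) - Φ (ι (b - a))| ≤ ε / 3 := by
      intro m hm
      rw [h2 _ hm]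
      refine (hδ _ ?_).le
      rw [dist_eq_norm, ← map_sub, show b + c m - (a + c n) - (b - a) = c m - c n by ring, map_sub]
      linarith [norm_sub_le (ι (c m)) (ι (c n)), c1 m, c1 n]
    by_cases k2 : ∃ m0, b + c m0 - (a + c n) = 0
    · obtain ⟨m0, k2⟩ := k2
      refine ⟨m0, fun m hm => k1 m fun k3 => hm ?_⟩
      have : c m = c m0 := by linear_combination k3 - k2
      simpa [hc] using this
    · exact ⟨0, fun m _ => k1 m fun k3 => k2 ⟨m, k3⟩⟩
  · rw [div_lt_iff₀ (by positivity)] at N3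
    have : (1 + |Φ (ι (b - a))|) / (N + 1 : ℕ) < ε / 3 := by rw [div_lt_iff₀ N4]; linarith
    simp only [Nat.succ_eq_add_one]
    linarith

end Pool.Agent.H.MP_3d980f_co
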