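import Mathlib
import Pool.Agent.H.MP_3d980f_co.F
open MeasureTheory Set Filter Topology ProbabilityTheory
open scoped ENNReal Nat ComplexConjugate
namespace Pool.Agent.H.MP_3d980f_co

variable {Γ : Type}

noncomputable def sg (z : Γ) (y : Z Γ) : ℝ := if (y z : ℝ) = 1 then 1 else -1

noncomputable def rr (k : ℕ) (z : Γ) (y : Z Γ) : ℝ :=
  if 1 - 1 / ((k : ℝ) + 1) < y z ∧ (y z : ℝ) ≠ 1 then 1 else 0

theorem meas_v (z : Γ) : Measurable fun y : Z Γ => (y z : ℝ) :=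
  measurable_subtype_coe.comp (measurable_pi_apply z)

theorem meas_sg (z : Γ) : Measurable (sg z) :=
  Measurable.ite (measurableSet_eq_fun (meas_v z) measurable_const) measurable_const
    measurable_const

theorem meas_rr (k : ℕ) (z : Γ) : Measurable (rr k z) :=
  Measurable.ite ((measurableSet_lt measurable_const (meas_v z)).inter
    (measurableSet_eq_fun (meas_v z) measurable_const).compl) measurable_const measurable_const

theorem sg_sq (z : Γ) (y : Z Γ) : sg z y * sg z y = 1 := by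
  rw [sg]; split_ifs <;> norm_num

theorem sg_abs (z : Γ) (y : Z Γ) : ‖sg z y‖ = 1 := by
  rw [sg]; split_ifs <;> norm_num

theorem rr_bd (k : ℕ) (z : Γ) (y : Z Γ) : 0 ≤ rr k z y ∧ rr k z y ≤ 1 := by
  rw [rr]; split_ifs <;> norm_num

theorem sg_tf {a b c : Γ} {y : Z Γ} (h : tf a b c y = 0) :
    sg a y * sg b y + sg b y * sg c y + sg a y * sg c y = -1 := by
  have h1 := mul_nonneg (mul_nonneg (pos1 y a).1 (pos1 y b).1) (pos1 y c).1
  have k : ∀ z, (y z : ℝ) ≠ 1 → 0 < 1 - (y z : ℝ) := fun z hz =>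
    sub_pos.2 (lt_of_le_of_ne (y z).2.2 hz)
  simp only [sg]
  split_ifs with ha hb hc hc hb hc hc
  · rw [tf, ha, hb, hc] at h; norm_num at h
  all_goals try norm_num
  rw [tf_eq] at h
  have := mul_pos (mul_pos (k a ha) (k b hb)) (k c hc)
  linarith

theorem sg_le (k : ℕ) (a b : Γ) (y : Z Γ) : (sg a y - sg b y) ^ 2 ≤
    4 * ((k : ℝ) + 1) ^ 2 * ((y a : ℝ) - y b) ^ 2 + 4 * rr k a y + 4 * rr k b y := by
  have k0 : (0 : ℝ) < k + 1 := by positivity
  have key : ∀ a b : Γ, (y a : ℝ) = 1 → (y b : ℝ) ≠ 1 →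
      1 ≤ ((k : ℝ) + 1) ^ 2 * ((y a : ℝ) - y b) ^ 2 + rr k b y := by
    intro a b ha hb
    rw [rr, ha]
    split_ifs with h
    · have : 0 ≤ ((k : ℝ) + 1) ^ 2 * (1 - (y b : ℝ)) ^ 2 := by positivity
      linarith
    · have h1 : 1 / ((k : ℝ) + 1) ≤ 1 - y b := by
        by_contra h2
        exact h ⟨by linarith [not_le.1 h2], hb⟩
      rw [div_le_iff₀ k0] at h1
      rw [← mul_pow, add_zero]
      exact one_le_pow₀ (by linarith)
  have a1 := rr_bd k a y
  have a2 := rr_bd k b y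
  have a3 : 0 ≤ ((k : ℝ) + 1) ^ 2 * ((y a : ℝ) - y b) ^ 2 := by positivity
  simp only [sg]
  split_ifs with ha hb hb
  · linarith [a1.1, a2.1]
  · linarith [key a b ha hb, a1.1]
  · have := key b a hb ha
    rw [← neg_sub (y a : ℝ), neg_sq] at this
    linarith [a2.1]
  · linarith [a1.1, a2.1]

theorem rr_lim (Q : Measure (Z Γ)) [IsProbabilityMeasure Q] (z : Γ) :
    Tendsto (fun k => ∫ y, rr k z y ∂Q) atTop (𝓝 0) := by
  have := tendsto_integral_of_dominated_convergence (μ := Q) (F := fun k => rr k z)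
    (f := fun _ => 0) (fun _ => 1) (fun k => (meas_rr k z).aestronglyMeasurable)
    (integrable_const _) (fun k => Eventually.of_forall fun y => by
      rw [Real.norm_of_nonneg (rr_bd k z y).1]; exact (rr_bd k z y).2)
    (Eventually.of_forall fun y => by
      by_cases hy : (y z : ℝ) = 1
      · simp [rr, hy]
      have k : 0 < 1 - (y z : ℝ) := sub_pos.2 (lt_of_le_of_ne (y z).2.2 hy)
      refine tendsto_const_nhds.congr' ?_
      filter_upwards [(tendsto_one_div_add_atTop_nhds_zero_nat (𝕜 := ℝ)).eventually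
        (gt_mem_nhds k)] with n hn
      rw [rr, if_neg fun h => by linarith [h.1]])
  simpa using this

theorem mem_sg (Q : Measure (Z Γ)) [IsProbabilityMeasure Q] (a b : Γ) :
    MemLp (fun y => sg a y * sg b y) 2 Q :=
  MemLp.of_bound ((meas_sg a).mul (meas_sg b)).aestronglyMeasurable 1
    (Eventually.of_forall fun y => by rw [norm_mul, sg_abs, sg_abs, mul_one])

theorem cmp_eq {X : Type} [MeasurableSpace X] {Q : Measure X} {f g : X → X} (e : f = g)
    (hf : MeasurePreserving f Q Q) (hg : MeasurePreserving g Q Q) (v : Lp ℝ 2 Q) :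
    Lp.compMeasurePreserving f hf v = Lp.compMeasurePreserving g hg v := by
  subst e; rfl

theorem norm_E (Q : Measure (Z Γ)) [IsProbabilityMeasure Q] (a a' b : Γ) :
    ‖(mem_sg Q a b).toLp _ - (mem_sg Q a' b).toLp _‖ ^ 2 = ∫ y, (sg a y - sg a' y) ^ 2 ∂Q := by
  rw [← real_inner_self_eq_norm_sq, L2.inner_def]
  refine integral_congr_ae ?_
  filter_upwards [Lp.coeFn_sub ((mem_sg Q a b).toLp _) ((mem_sg Q a' b).toLp _),
    (mem_sg Q a b).coeFn_toLp, (mem_sg Q a' b).coeFn_toLp] with y h1 h2 h3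
  rw [h1, Pi.sub_apply, h2, h3, real_inner_self_eq_norm_sq, Real.norm_eq_abs, sq_abs]
  linear_combination (sg a y - sg a' y) ^ 2 * sg_sq b y

variable [Field Γ] [Countable Γ] {ι : Γ →+* ℂ}

theorem sg_cont {Q : Measure (Z Γ)} [IsProbabilityMeasure Q]
    (h : ∀ a, MeasurePreserving (tr a) Q Q) {Φ : ℂ → ℝ} (hΦ : Continuous Φ)
    (h2 : ∀ a b, ∫ y, (y a : ℝ) * y b ∂Q = Φ (ι (b - a))) {ε : ℝ} (hε : 0 < ε) :
    ∃ δ > 0, ∀ a a', ‖ι (a - a')‖ < δ → ∫ y, (sg a y - sg a' y) ^ 2 ∂Q < ε := by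
  obtain ⟨k, hk⟩ := ((rr_lim Q 0).eventually (gt_mem_nhds (show 0 < ε / 16 by positivity))).exists
  have k0 : (0 : ℝ) < 16 * (k + 1) ^ 2 := by positivity
  obtain ⟨δ, δ0, hδ⟩ := Metric.continuous_iff.1 hΦ 0 (ε / (16 * (k + 1) ^ 2)) (by positivity)
  refine ⟨δ, δ0, fun a a' ha => ?_⟩
  have r1 : ∀ z, ∫ y, rr k z y ∂Q = ∫ y, rr k 0 y ∂Q := fun z => by
    rw [← mpi (h z) (meas_rr k 0)]
    simp only [rr, tr, zero_add]
  have i1 : ∀ z, Integrable (rr k z) Q := fun z =>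
    Integrable.of_bound (meas_rr k z).aestronglyMeasurable 1 (Eventually.of_forall fun y => by
      rw [Real.norm_of_nonneg (rr_bd k z y).1]; exact (rr_bd k z y).2)
  have i2 : Integrable (fun y : Z Γ => ((y a : ℝ) - y a') ^ 2) Q :=
    itg (((cont_v a).sub (cont_v a')).pow 2) Q
  have i3 := (i2.const_mul (4 * ((k : ℝ) + 1) ^ 2))
  have i4 : Integrable (fun y : Z Γ => 4 * ((k : ℝ) + 1) ^ 2 * ((y a : ℝ) - y a') ^ 2 +
    4 * rr k a y) Q := i3.add ((i1 a).const_mul 4)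
  have e1 : ∫ y, ((y a : ℝ) - y a') ^ 2 ∂Q = 2 * Φ 0 - 2 * Φ (ι (a - a')) := by
    have j1 := itg (cont_vv a a) Q
    have j2 := itg (cont_vv a' a') Q
    have j3 := (itg (cont_vv a' a) Q).const_mul 2
    have j4 : Integrable (fun y : Z Γ => (y a : ℝ) * y a + y a' * y a') Q := j1.add j2
    have : ∀ y : Z Γ, ((y a : ℝ) - y a') ^ 2 = y a * y a + y a' * y a' - 2 * (y a' * y a) :=
      fun y => by ring
    simp only [this]
    rw [integral_sub j4 j3, integral_add j1 j2, integral_const_mul, h2, h2, h2, sub_self, sub_self,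
      map_zero]
    ring
  have := integral_mono_of_nonneg (Eventually.of_forall fun y => sq_nonneg (sg a y - sg a' y))
    (i4.add ((i1 a').const_mul 4)) (Eventually.of_forall fun y => sg_le k a a' y)
  refine this.trans_lt ?_
  simp only [Pi.add_apply]
  rw [integral_add i4 ((i1 a').const_mul 4), integral_add i3 ((i1 a).const_mul 4),
    integral_const_mul, integral_const_mul, integral_const_mul, r1 a, r1 a', e1]
  have b1 := hδ (ι (a - a')) (by rwa [dist_zero_right])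
  rw [Real.dist_eq, lt_div_iff₀ k0] at b1
  have b2 : Φ 0 - Φ (ι (a - a')) ≤ |Φ (ι (a - a')) - Φ 0| := by
    rw [abs_sub_comm]; exact le_abs_self _
  nlinarith [mul_le_mul_of_nonneg_right b2 k0.le]

noncomputable def sys (hs : Sp ι) {Q : Measure (Z Γ)} [IsProbabilityMeasure Q]
    (h : ∀ a, MeasurePreserving (tr a) Q Q) {Φ : ℂ → ℝ} (hΦ : Continuous Φ)
    (h2 : ∀ a b, ∫ y, (y a : ℝ) * y b ∂Q = Φ (ι (b - a))) : Sys ι (Lp ℝ 2 Q) where
  T z := Lp.compMeasurePreservingₗᵢ ℝ (tr z) (h z)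
  E a b := (mem_sg Q a b).toLp _
  add a b v := by
    refine (cmp_eq (g := tr b ∘ tr a) ?_ (h _) ((h b).comp (h a)) v).trans
      (Lp.compMeasurePreserving_comp_apply _ _ _)
    funext y z
    simp only [tr, Function.comp, add_assoc, add_comm a b]
  sh _ _ _ := rfl
  sy a b := by simp only [mul_comm]
  cont ε hε := by
    obtain ⟨δ, δ0, hδ⟩ := sg_cont h hΦ h2 (ε := ε ^ 2) (by positivity)
    refine ⟨δ, δ0, fun a a' b ha => ?_⟩
    have := hδ a a' ha
    rw [← norm_E Q a a' b] at this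
    exact lt_of_pow_lt_pow_left₀ 2 hε.le this
  sp := hs

theorem no_mid [CharZero Γ] (hs : Sp ι) {Q : Measure (Z Γ)} [IsProbabilityMeasure Q]
    (h : ∀ a, MeasurePreserving (tr a) Q Q) {Φ : ℂ → ℝ} (hΦ : Continuous Φ)
    (h2 : ∀ a b, ∫ y, (y a : ℝ) * y b ∂Q = Φ (ι (b - a))) {κ : ℝ} {k : Γ} (hk : ι k = κ)
    (k1 : 1 < κ) (k2 : κ ≤ 2) (h3 : ∀ z, (‖ι z‖ = 1 ∨ ‖ι z‖ = κ) → Φ (ι z) = -1 / 3) : False := by
  have t1 : ∀ a b, (‖ι a‖ = 1 ∨ ‖ι a‖ = κ) → (‖ι b‖ = 1 ∨ ‖ι b‖ = κ) →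
      (‖ι (a + b)‖ = 1 ∨ ‖ι (a + b)‖ = κ) → ∀ᵐ y ∂Q,
        sg 0 y * sg a y + sg a y * sg (a + b) y + sg 0 y * sg (a + b) y = -1 := by
    intro a b ha hb hc
    have := (integral_eq_zero_iff_of_nonneg (tf_nonneg 0 a (a + b)) (itg (cont_tf _ _ _) Q)).1 (by
      rw [int_tf, h2, h2, h2, sub_zero, sub_zero, add_sub_cancel_left, h3 a ha, h3 b hb, h3 _ hc]
      norm_num)
    filter_upwards [this] with y hy
    exact sg_tf hy
  have t2 : ∀ u, ‖ι u‖ = 1 → sg (u + u) =ᵐ[Q] sg 0 := by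
    intro u hu
    have := (sys hs h hΦ h2).grp hk k1 k2 (c := (memLp_const (-1 : ℝ)).toLp _) (fun a b ha hb hc => by
      refine Lp.ext ?_
      filter_upwards [t1 a b ha hb hc, (memLp_const (μ := Q) (p := 2) (-1 : ℝ)).coeFn_toLp,
        Lp.coeFn_add ((mem_sg Q 0 a).toLp _ + (mem_sg Q a (a + b)).toLp _)
          ((mem_sg Q 0 (a + b)).toLp _),
        Lp.coeFn_add ((mem_sg Q 0 a).toLp _) ((mem_sg Q a (a + b)).toLp _),
        (mem_sg Q 0 a).coeFn_toLp, (mem_sg Q a (a + b)).coeFn_toLp,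
        (mem_sg Q 0 (a + b)).coeFn_toLp] with y a1 a2 a3 a4 a5 a6 a7
      rw [a2]
      exact a3.trans (by rw [Pi.add_apply, a4, Pi.add_apply, a5, a6, a7, a1])) hu
    filter_upwards [(MemLp.toLp_eq_toLp_iff (mem_sg Q u (u + u)) (mem_sg Q 0 u)).1 this] with y hy
    linear_combination sg u y * hy - (sg (u + u) y - sg 0 y) * sg_sq u y
  have t3 : ∀ z, ‖ι z‖ = 1 → sg z =ᵐ[Q] sg 0 := by
    intro z hz
    obtain ⟨u, u', a1, a2, a3⟩ := hs (z / 2) (by
      rw [map_div₀, norm_div, hz, map_ofNat, Complex.norm_ofNat]; norm_num)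
    filter_upwards [(h (u' + u')).quasiMeasurePreserving.ae_eq_comp (t2 u a1), t2 u' a2]
      with y b1 b2
    rw [← b2, show z = u + u + (u' + u') by linear_combination 2 * a3]
    refine Eq.trans b1 ?_
    simp only [Function.comp, sg, tr, zero_add]
  obtain ⟨u, u', a1, a2, a3⟩ := hs 1 (by simp)
  have a4 : ‖ι (u + u')‖ = 1 := by rw [← a3]; simp
  obtain ⟨y, b1, b2, b3⟩ := ((t1 u u' (.inl a1) (.inl a2) (.inl a4)).and
    ((t3 u a1).and (t3 _ a4))).exists
  rw [b2, b3, sg_sq] at b1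
  norm_num at b1

end Pool.Agent.H.MP_3d980f_co
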