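import Mathlib
import Pool.Agent.H.MP_3d980f_co.G
open MeasureTheory Set Filter Topology ProbabilityTheory
open scoped ENNReal Nat ComplexConjugate
namespace Pool.Agent.H.MP_3d980f_co

section
variable {Γ : Type} [Field Γ] [Countable Γ] {ι : Γ →+* ℂ} {θ : ℕ → Γ}

theorem rot_pt {P : Measure (Z Γ)} {u : Γ} (h : MeasurePreserving (rot u) P P) (z : Γ) :
    ∫ y, (y 0 : ℝ) * y (u * z) ∂P = ∫ y, (y 0 : ℝ) * y z ∂P := by
  rw [← mpi h (cont_vv 0 z).measurable]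
  simp only [rot, mul_zero]

theorem ge_third (hs : Sp ι) {P : Measure (Z Γ)} [IsProbabilityMeasure P]
    (h1 : ∀ a, MeasurePreserving (tr a) P P)
    (h2 : ∀ u, ‖ι u‖ = 1 → MeasurePreserving (rot u) P P) (z : Γ) :
    -1 / 3 ≤ ∫ y, (y 0 : ℝ) * y z ∂P := by
  obtain ⟨u, u', a1, a2, a3⟩ := hs 1 (by simp)
  have := integral_nonneg (μ := P) (f := tf 0 z (u * z)) (tf_nonneg 0 z (u * z))
  rw [int_tf, two_pt h1 z, show u * z - z = -u' * z by linear_combination -z * a3,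
    rot_pt (h2 _ a1), rot_pt (h2 _ (by rwa [map_neg, norm_neg]))] at this
  linarith

variable [CharZero Γ]

theorem core1 (hθ : Th ι θ) (hs : Sp ι) (P : ProbabilityMeasure (Z Γ))
    (h1 : ∀ a, MeasurePreserving (tr a) (P : Measure (Z Γ)) P)
    (h2 : ∀ u, ‖ι u‖ = 1 → MeasurePreserving (rot u) (P : Measure (Z Γ)) P)
    (h3 : ∫ y, (y 0 : ℝ) * y 0 ∂(P : Measure (Z Γ)) = 1) {κ : ℝ} {k : Γ} (hk : ι k = κ)
    (k1 : 1 < κ) (h4 : ∫ y, (y 0 : ℝ) * y 1 ∂(P : Measure (Z Γ)) = -1 / 3)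
    (h5 : ∫ y, (y 0 : ℝ) * y k ∂(P : Measure (Z Γ)) = -1 / 3) : False := by
  have nk : ‖ι k‖ = κ := by rw [hk, Complex.norm_real, Real.norm_of_nonneg (by linarith)]
  have k0 : k ≠ 0 := by rintro rfl; simp at nk; linarith
  obtain ⟨μ, a1, a2, a3⟩ := bochner ι (fun z => ∫ y, (y 0 : ℝ) * y z ∂(P : Measure (Z Γ))) h3
    (fun z => by
      have := norm_integral_le_of_norm_le_const (μ := (P : Measure (Z Γ))) (C := 1)
        (f := fun y => (y 0 : ℝ) * y z) (Eventually.of_forall fun y => by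
          rw [norm_mul]
          exact mul_le_one₀ (abs_le.2 (y _).2) (norm_nonneg _) (abs_le.2 (y _).2))
      simpa using this)
    (fun u z hu => rot_pt (h2 u hu) z) (pd h1)
  obtain ⟨Φ, c1, c2, c3⟩ := spec hθ hs μ.toMeasure a2 a3
  have c4 : ∀ z, z ≠ 0 → ∫ y, (y 0 : ℝ) * y z ∂(P : Measure (Z Γ)) = Φ (ι z) := fun z hz =>
    (a1 z).symm.trans (c2 z hz)
  rcases le_total 2 κ with k2 | k2
  · have := c3 1 k one_ne_zero (by rw [nk]; simpa using k2)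
    rw [← c4 1 one_ne_zero, ← c4 k k0, h4, h5] at this
    norm_num at this
  obtain ⟨Q, b1, b2⟩ := exQ P h1 c1 c4
  refine no_mid hs b1 c1 b2 hk k1 k2 fun z hz => ?_
  rcases hz with hz | hz
  · rw [← c4 z (by rintro rfl; simp at hz), ← h4, ← rot_pt (h2 z hz) 1, mul_one]
  · rw [← c4 z (by rintro rfl; simp at hz; linarith), ← h5, ← rot_pt (h2 (z / k) (by
      rw [map_div₀, norm_div, hz, nk, div_self (by linarith)])) k, div_mul_cancel₀ _ k0]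

theorem core2 (hθ : Th ι θ) (hs : Sp ι) (hr : ∀ z, ∃ k, ι k = ‖ι z‖)
    (P : ProbabilityMeasure (Z Γ))
    (h1 : ∀ a, MeasurePreserving (tr a) (P : Measure (Z Γ)) P)
    (h2 : ∀ u, ‖ι u‖ = 1 → MeasurePreserving (rot u) (P : Measure (Z Γ)) P)
    (h3 : ∫ y, (y 0 : ℝ) * y 0 ∂(P : Measure (Z Γ)) = 1) {e e' : Γ}
    (h4 : ∫ y, (y 0 : ℝ) * y e ∂(P : Measure (Z Γ)) = -1 / 3)
    (h5 : ∫ y, (y 0 : ℝ) * y e' ∂(P : Measure (Z Γ)) = -1 / 3) : ‖ι e'‖ ≤ ‖ι e‖ := by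
  by_contra h6
  rw [not_le] at h6
  have e0 : e ≠ 0 := by rintro rfl; rw [h3] at h4; norm_num at h4
  have e1 : 0 < ‖ι e‖ := by simpa using e0
  have e2 : e' ≠ 0 := by rintro rfl; simp at h6; linarith
  obtain ⟨k, hk⟩ := hr (e' / e)
  have m : ∀ g : Z Γ → ℝ, Continuous g → ∫ y, g y ∂((P.map (cont_rot e).measurable.aemeasurable :
      ProbabilityMeasure (Z Γ)) : Measure (Z Γ)) = ∫ y, g (rot e y) ∂(P : Measure (Z Γ)) :=
    fun g hg => integral_map (cont_rot e).measurable.aemeasurable hg.aestronglyMeasurable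
  refine core1 hθ hs (P.map (cont_rot e).measurable.aemeasurable)
    (fun a => mp_of (cont_tr a) fun g => ?_) (fun u hu => mp_of (cont_rot u) fun g => ?_) ?_ hk
    ?_ ?_ ?_
  · rw [m (fun y => g (tr a y)) (g.continuous.comp (cont_tr a)), m _ g.continuous,
      ← mpi (h1 (e * a)) (g := fun y => g (rot e y)) (g.continuous.comp (cont_rot e)).measurable]
    congr 1; funext y; congr 1; funext z
    simp only [tr, rot, mul_add]
  · rw [m (fun y => g (rot u y)) (g.continuous.comp (cont_rot u)), m _ g.continuous,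
      ← mpi (h2 u hu) (g := fun y => g (rot e y)) (g.continuous.comp (cont_rot e)).measurable]
    congr 1; funext y; congr 1; funext z
    simp only [rot, mul_left_comm]
  · rw [m _ (cont_vv 0 0)]; simpa only [rot, mul_zero] using h3
  · rwa [map_div₀, norm_div, one_lt_div e1]
  · rw [m _ (cont_vv 0 1)]; simpa only [rot, mul_zero, mul_one] using h4
  · rw [m _ (cont_vv 0 k), ← h5, ← rot_pt (h2 (e * k / e') (by
      rw [map_div₀, map_mul, norm_div, norm_mul, hk, Complex.norm_real, norm_norm, map_div₀,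
        norm_div, mul_div_cancel₀ _ e1.ne', div_self (by linarith)])) e', div_mul_cancel₀ _ e2]
    simp only [rot, mul_zero]

theorem core3 (hθ : Th ι θ) (hs : Sp ι) (hr : ∀ z, ∃ k, ι k = ‖ι z‖) (col : Γ → Bool)
    (𝒯 : Set (Γ × Γ)) (h : ∀ t ∈ 𝒯, ∀ x u, ‖ι u‖ = 1 →
      ¬ (col x = col (x + u * t.1) ∧ col x = col (x + u * t.2))) : ∀ t ∈ 𝒯, ∀ s ∈ 𝒯,
      ‖ι t.1‖ = ‖ι s.1‖ ∧ ‖ι t.1‖ = ‖ι t.2‖ ∧ ‖ι t.1‖ = ‖ι (t.2 - t.1)‖ := by
  obtain ⟨P, h1, h2, h3, h4⟩ := exP col 𝒯 h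
  have k : ∀ t ∈ 𝒯, ∫ y, (y 0 : ℝ) * y t.1 ∂(P : Measure (Z Γ)) = -1 / 3 ∧
      ∫ y, (y 0 : ℝ) * y t.2 ∂(P : Measure (Z Γ)) = -1 / 3 ∧
      ∫ y, (y 0 : ℝ) * y (t.2 - t.1) ∂(P : Measure (Z Γ)) = -1 / 3 := by
    intro t ht
    have := h4 t ht
    rw [int_tf, two_pt h1 t.1] at this
    have a1 := ge_third hs h1 h2 t.1
    have a2 := ge_third hs h1 h2 t.2
    have a3 := ge_third hs h1 h2 (t.2 - t.1)
    exact ⟨by linarith, by linarith, by linarith⟩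
  have k2 : ∀ {e e' : Γ}, ∫ y, (y 0 : ℝ) * y e ∂(P : Measure (Z Γ)) = -1 / 3 →
      ∫ y, (y 0 : ℝ) * y e' ∂(P : Measure (Z Γ)) = -1 / 3 → ‖ι e‖ = ‖ι e'‖ := fun a b =>
    le_antisymm (core2 hθ hs hr P h1 h2 h3 b a) (core2 hθ hs hr P h1 h2 h3 a b)
  exact fun t ht s hs => ⟨k2 (k t ht).1 (k s hs).1, k2 (k t ht).1 (k t ht).2.1,
    k2 (k t ht).1 (k t ht).2.2⟩

end

theorem exK (S : Set ℂ) (hS : S.Countable) : ∃ K : Subfield ℂ, Countable K ∧ S ⊆ K ∧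
    (∀ x : ℂ, x ^ 2 ∈ K → x ∈ K) ∧ ∀ x ∈ K, conj x ∈ K := by
  set F := Subfield.closure (Complex.re '' S ∪ Complex.im '' S) with hF
  have c1 : Countable F := by
    rw [← Cardinal.mk_le_aleph0_iff]
    refine (Subfield.cardinalMk_closure_le_max _).trans (max_le ?_ le_rfl)
    rw [Cardinal.mk_le_aleph0_iff]
    exact ((hS.image _).union (hS.image _)).to_subtype
  have k : ∀ x : ℂ, x ^ 2 ∈ algebraicClosure F ℂ → x ∈ algebraicClosure F ℂ := fun x hx =>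
    mem_algebraicClosure_iff.2 (IsAlgebraic.of_pow two_pos (mem_algebraicClosure_iff.1 hx))
  have k2 : ∀ r : ℝ, r ∈ F → (r : ℂ) ∈ algebraicClosure F ℂ := fun r hr =>
    (algebraicClosure F ℂ).algebraMap_mem ⟨r, hr⟩
  refine ⟨(algebraicClosure F ℂ).toSubfield,
    ((Algebraic.countable F ℂ).mono fun x hx => mem_algebraicClosure_iff.1 hx).to_subtype,
    fun z hz => ?_, k, fun x hx => mem_algebraicClosure_iff.2
      ((mem_algebraicClosure_iff.1 hx).algHom (Complex.conjAe.restrictScalars F).toAlgHom)⟩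
  rw [← Complex.re_add_im z]
  exact add_mem (k2 _ (Subfield.subset_closure (.inl ⟨z, hz, rfl⟩)))
    (mul_mem (k2 _ (Subfield.subset_closure (.inr ⟨z, hz, rfl⟩)))
      (k _ (by rw [Complex.I_sq]; exact neg_mem (one_mem _))))

theorem mainC (col : ℂ → Bool) (s t : ℂ × ℂ) (h : ∀ r, r = s ∨ r = t → ∀ x u : ℂ, ‖u‖ = 1 →
    ¬ (col x = col (x + u * r.1) ∧ col x = col (x + u * r.2))) :
    ‖t.1‖ = ‖s.1‖ ∧ ‖t.1‖ = ‖t.2‖ ∧ ‖t.1‖ = ‖t.2 - t.1‖ := by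
  obtain ⟨K, c1, c2, c3, c4⟩ := exK {s.1, s.2, t.1, t.2} (Set.toFinite _).countable
  have sq : ∀ r : ℝ, 0 ≤ r → (Complex.I * (√r : ℝ)) ^ 2 = -r := fun r hr => by
    rw [mul_pow, ← Complex.ofReal_pow, Real.sq_sqrt hr]; simp
  have hw : ∀ r : ℝ, (r : ℂ) ∈ K → Complex.I * (√r : ℝ) ∈ K := by
    intro r hr
    rcases le_total r 0 with h0 | h0
    · rw [Real.sqrt_eq_zero_of_nonpos h0]; simp
    · exact c3 _ (by rw [sq r h0]; exact neg_mem hr)
  have hn : ∀ z ∈ K, ((‖z‖ : ℝ) : ℂ) ∈ K := fun z hz =>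
    c3 _ (by rw [← Complex.mul_conj']; exact mul_mem hz (c4 z hz))
  have m1 : ∀ N : ℕ, ((4 * (N : ℝ) ^ 2 - 1 : ℝ) : ℂ) ∈ K := fun N => by
    push_cast
    exact sub_mem (mul_mem (ofNat_mem _ 4) (pow_mem (natCast_mem _ _) 2)) (one_mem _)
  set θ : ℕ → K := fun N => (1 + ⟨_, hw _ (m1 N)⟩) / 2 with hθ
  have t1 : ∀ N, K.subtype (θ N) = (1 + Complex.I * (√(4 * (N : ℝ) ^ 2 - 1) : ℝ)) / 2 :=
    fun N => by simp only [hθ, map_div₀, map_add, map_one, map_ofNat]; rfl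
  have := core3 (ι := K.subtype) (θ := θ) ⟨fun N hN => K.subtype.injective (by
      rw [map_mul, map_sub, map_one, t1, map_natCast]
      have h1 : (1 : ℝ) ≤ N := by exact_mod_cast hN
      have := sq (4 * (N : ℝ) ^ 2 - 1) (by nlinarith)
      push_cast at this ⊢
      linear_combination (-1 / 4 : ℂ) * this), fun N => by
      rw [map_sub, map_one, t1]
      simp only [map_div₀, map_add, map_one, map_mul, Complex.conj_I, Complex.conj_ofReal,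
        map_ofNat]
      ring⟩ (fun z hz => ?_) (fun z => ⟨⟨_, hn z z.2⟩, rfl⟩) (fun z => col z)
    {(⟨s.1, c2 (by simp)⟩, ⟨s.2, c2 (by simp)⟩), (⟨t.1, c2 (by simp)⟩, ⟨t.2, c2 (by simp)⟩)}
    (by
      rintro r (rfl | rfl) x u hu
      exacts [h s (.inl rfl) x u hu, h t (.inr rfl) x u hu])
    _ (.inr rfl) _ (.inl rfl)
  · exact this
  rcases eq_or_ne z 0 with rfl | z0
  · exact ⟨1, -1, by simp, by simp, by simp⟩
  have z1 : 0 < ‖(z : ℂ)‖ := by simpa using z0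
  have z2 : ‖(z : ℂ)‖ ≤ 2 := hz
  have m2 : ((4 - ‖(z : ℂ)‖ ^ 2 : ℝ) : ℂ) ∈ K := by
    push_cast
    exact sub_mem (ofNat_mem _ 4) (pow_mem (hn z z.2) 2)
  have n1 : ∀ σ : ℝ, σ ^ 2 = 4 - ‖(z : ℂ)‖ ^ 2 →
      ‖(z : ℂ) / (‖(z : ℂ)‖ : ℝ) * (((‖(z : ℂ)‖ : ℝ) + Complex.I * σ) / 2)‖ = 1 := by
    intro σ hσ
    rw [norm_mul, norm_div, Complex.norm_real, norm_norm, div_self z1.ne', one_mul, norm_div,
      mul_comm Complex.I, Complex.norm_add_mul_I, hσ, add_sub_cancel, Complex.norm_ofNat,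
      show (4 : ℝ) = 2 ^ 2 by norm_num, Real.sqrt_sq zero_le_two, div_self two_ne_zero]
  have n2 := Real.sq_sqrt (show 0 ≤ 4 - ‖(z : ℂ)‖ ^ 2 by nlinarith)
  refine ⟨z / ⟨_, hn z z.2⟩ * ((⟨_, hn z z.2⟩ + ⟨_, hw _ m2⟩) / 2),
    z / ⟨_, hn z z.2⟩ * ((⟨_, hn z z.2⟩ - ⟨_, hw _ m2⟩) / 2), ?_, ?_, ?_⟩
  · rw [← n1 _ n2]
    simp only [map_mul, map_div₀, map_add, map_ofNat]; rfl
  · rw [← n1 (-√(4 - ‖(z : ℂ)‖ ^ 2)) (by rw [neg_sq, n2]), Complex.ofReal_neg, mul_neg,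
      ← sub_eq_add_neg]
    simp only [map_mul, map_div₀, map_sub, map_ofNat]; rfl
  · have : (⟨_, hn z z.2⟩ : K) ≠ 0 := fun e => z1.ne' (by simpa using congrArg Subtype.val e)
    field_simp
    ring

theorem mainE (f : EuclideanSpace ℝ (Fin 2) → Bool) (s t : ℂ × ℂ)
    (h : ∀ r, r = s ∨ r = t → ¬ ∃ x y z : EuclideanSpace ℝ (Fin 2), dist x y = ‖r.1‖ ∧
      dist y z = ‖r.2 - r.1‖ ∧ dist z x = ‖r.2‖ ∧ f x = f y ∧ f y = f z) :
    ‖t.1‖ = ‖s.1‖ ∧ ‖t.1‖ = ‖t.2‖ ∧ ‖t.1‖ = ‖t.2 - t.1‖ := by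
  refine mainC (fun z => f (Complex.orthonormalBasisOneI.repr z)) s t
    fun r hr x u hu ⟨h1, h2⟩ => h r hr ⟨_, _, _, ?_, ?_, ?_, h1, h1.symm.trans h2⟩
  all_goals rw [LinearIsometryEquiv.dist_map, dist_eq_norm]
  · rw [sub_add_cancel_left, norm_neg, norm_mul, hu, one_mul]
  · rw [add_sub_add_left_eq_sub, ← mul_sub, norm_mul, hu, one_mul, norm_sub_rev]
  · rw [add_sub_cancel_left, norm_mul, hu, one_mul]

theorem main1 (a b c : EuclideanSpace ℝ (Fin 2))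
    (h : ¬ (dist a b = dist b c ∧ dist b c = dist c a)) (f : EuclideanSpace ℝ (Fin 2) → Bool) :
    ∃ x y z : EuclideanSpace ℝ (Fin 2), dist x y = dist a b ∧ dist y z = dist b c ∧
      dist z x = dist c a ∧ f x = f y ∧ f y = f z := by
  by_contra h1
  set e := Complex.orthonormalBasisOneI.repr.symm
  have a1 : ‖e b - e a‖ = dist a b := by rw [← dist_eq_norm, e.dist_map, dist_comm]
  have a2 : ‖e c - e a - (e b - e a)‖ = dist b c := by
    rw [sub_sub_sub_cancel_right, ← dist_eq_norm, e.dist_map, dist_comm]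
  have a3 : ‖e c - e a‖ = dist c a := by rw [← dist_eq_norm, e.dist_map]
  have := mainE f (e b - e a, e c - e a) (e b - e a, e c - e a) (by
    rintro r (rfl | rfl) <;> rwa [a1, a2, a3])
  rw [a1, a2, a3] at this
  exact h ⟨this.2.2, this.2.2.symm.trans this.2.1⟩

theorem main2 (col : EuclideanSpace ℝ (Fin 2) → Fin 2) (d d' : ℝ) (h0 : 0 < d) (h1 : 0 < d')
    (h2 : d ≠ d') (h3 : ¬ ∃ x y z : EuclideanSpace ℝ (Fin 2),
      dist x y = d ∧ dist y z = d ∧ dist x z = d ∧ col x = col y ∧ col y = col z) :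
    ∃ x y z : EuclideanSpace ℝ (Fin 2),
      dist x y = d' ∧ dist y z = d' ∧ dist x z = d' ∧ col x = col y ∧ col y = col z := by
  by_contra h4
  have s3 : √3 ^ 2 = 3 := Real.sq_sqrt (by norm_num)
  set ω : ℂ := (1 / 2 : ℝ) + (√3 / 2 : ℝ) * Complex.I with hω
  have w1 : ‖ω‖ = 1 := by
    rw [hω, Complex.norm_add_mul_I, Real.sqrt_eq_one]; linarith
  have w2 : ‖ω - 1‖ = 1 := by
    rw [show ω - 1 = (-1 / 2 : ℝ) + (√3 / 2 : ℝ) * Complex.I by rw [hω]; push_cast; ring,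
      Complex.norm_add_mul_I, Real.sqrt_eq_one]
    linarith
  have n : ∀ r : ℝ, 0 < r → ‖(r : ℂ)‖ = r ∧ ‖ω * r - r‖ = r ∧ ‖ω * r‖ = r := fun r hr => by
    have : ‖(r : ℂ)‖ = r := by rw [Complex.norm_real, Real.norm_of_nonneg hr.le]
    exact ⟨this, by rw [← sub_one_mul, norm_mul, w2, this, one_mul],
      by rw [norm_mul, w1, this, one_mul]⟩
  have := mainE (fun x => finTwoEquiv (col x)) (d, ω * d) (d', ω * d') (by
    rintro r (rfl | rfl) ⟨x, y, z, a1, a2, a3, a4, a5⟩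
    · exact h3 ⟨x, y, z, a1.trans (n d h0).1, a2.trans (n d h0).2.1,
        (dist_comm _ _).trans (a3.trans (n d h0).2.2), finTwoEquiv.injective a4,
        finTwoEquiv.injective a5⟩
    · exact h4 ⟨x, y, z, a1.trans (n d' h1).1, a2.trans (n d' h1).2.1,
        (dist_comm _ _).trans (a3.trans (n d' h1).2.2), finTwoEquiv.injective a4,
        finTwoEquiv.injective a5⟩)
  exact h2 ((n d h0).1.symm.trans (this.1.symm.trans (n d' h1).1))

end Pool.Agent.H.MP_3d980f_co
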